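import Mathlib
import Pool.Agent.Helper832.AutC.Burnside
import Pool.Agent.Helper832.AutC.Suff
import Pool.Agent.Helper832.AutC.Three

/-!
Class-preserving automorphisms of finite p-groups: basic facts on the bound by the order of the
derived subgroup.
-/

set_option autoImplicit false

open scoped commutatorElement

namespace Pool.Agent.K7.H88.AC

open Pool.Agent.Helper832.AutC

/-- all translates of `x` by elements of the derived subgroup are realised -/
def Full {G : Type} [Group G] {d : ℕ} (x : Fin d → G) : Prop :=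
  ∀ y : Fin d → G, (∀ i, y i ∈ commutator G) → ∃ α ∈ AutC G, ∀ i, α (x i) = y i * x i

theorem comm_mem {G : Type} [Group G] (a b : G) : ⁅a, b⁆ ∈ commutator G :=
  Subgroup.commutator_mem_commutator (Subgroup.mem_top _) (Subgroup.mem_top _)

theorem mem_of_conj {G : Type} [Group G] {a b : G} (h : IsConj a b) : b * a⁻¹ ∈ commutator G := by
  obtain ⟨c, rfl⟩ := isConj_iff.mp h
  exact comm_mem c a

theorem card_iff {G : Type} [Group G] [Finite G] {d : ℕ} (x : Fin d → G)
    (hx : Subgroup.closure (Set.range x) = ⊤) :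
    Nat.card (AutC G) = Nat.card (commutator G) ^ d ↔ Full x := by
  classical
  let Φ : AutC G → (Fin d → commutator G) :=
    fun α i => ⟨α.1 (x i) * (x i)⁻¹, mem_of_conj (α.2 (x i))⟩
  have hinj : Function.Injective Φ := by
    intro α β h
    apply Subtype.ext
    have h1 : (α.1 : G →* G) = (β.1 : G →* G) := by
      refine MonoidHom.eq_of_eqOn_dense hx ?_
      rintro _ ⟨i, rfl⟩
      have := congrArg Subtype.val (congrFun h i)
      exact mul_right_cancel this
    exact MulEquiv.ext (fun g => DFunLike.congr_fun h1 g)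
  have hcard : Nat.card (Fin d → commutator G) = Nat.card (commutator G) ^ d := by
    rw [Nat.card_fun, Nat.card_eq_fintype_card (α := Fin d), Fintype.card_fin]
  constructor
  · intro h y hy
    have h1 : Nat.card (Fin d → commutator G) ≤ Nat.card (AutC G) := by
      rw [hcard]; exact h.ge
    have hbij : Function.Bijective Φ := hinj.bijective_of_nat_card_le h1
    obtain ⟨α, hα⟩ := hbij.2 (fun i => ⟨y i, hy i⟩)
    refine ⟨α.1, α.2, fun i => ?_⟩
    have h2 : α.1 (x i) * (x i)⁻¹ = y i := congrArg Subtype.val (congrFun hα i)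
    rw [← h2, inv_mul_cancel_right]
  · intro h
    have hbij : Function.Bijective Φ := by
      refine ⟨hinj, fun y => ?_⟩
      obtain ⟨α, hα, hα'⟩ := h (fun i => (y i).1) (fun i => (y i).2)
      refine ⟨⟨α, hα⟩, funext (fun i => Subtype.ext ?_)⟩
      show α (x i) * (x i)⁻¹ = _
      rw [hα', mul_inv_cancel_right]
    rw [← hcard]
    exact Nat.card_eq_of_bijective Φ hbij

/-- `G` is generated by `d` and not by fewer elements, and every generating family of length `d`
has all its translates realised -/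
structure Star (G : Type) [Group G] (d : ℕ) : Prop where
  ex : ∃ x : Fin d → G, Subgroup.closure (Set.range x) = ⊤
  le : ∀ (m : ℕ) (x : Fin m → G), Subgroup.closure (Set.range x) = ⊤ → d ≤ m
  full : ∀ x : Fin d → G, Subgroup.closure (Set.range x) = ⊤ → Full x

theorem exists_rank {G : Type} [Group G] [Finite G] :
    ∃ x : Fin (Group.rank G) → G, Subgroup.closure (Set.range x) = ⊤ := by
  obtain ⟨S, hS, hgen⟩ := Group.rank_spec G
  refine ⟨fun i => ((S.equivFin.symm (Fin.cast hS.symm i) : S) : G), ?_⟩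
  rw [← hgen]
  congr 1
  ext g
  constructor
  · rintro ⟨i, rfl⟩
    exact (S.equivFin.symm (Fin.cast hS.symm i)).2
  · intro hg
    refine ⟨Fin.cast hS (S.equivFin ⟨g, hg⟩), ?_⟩
    simp

theorem rank_le {G : Type} [Group G] [Finite G] (m : ℕ) (x : Fin m → G)
    (hx : Subgroup.closure (Set.range x) = ⊤) : Group.rank G ≤ m := by
  classical
  have h1 := Group.rank_le (G := G) (S := Finset.univ.image x) (by
    rw [Finset.coe_image, Finset.coe_univ, Set.image_univ]; exact hx)
  refine h1.trans ?_
  refine Finset.card_image_le.trans ?_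
  rw [Finset.card_univ, Fintype.card_fin]

theorem star_of_card {G : Type} [Group G] [Finite G]
    (h : Nat.card (AutC G) = Nat.card (commutator G) ^ Group.rank G) : Star G (Group.rank G) :=
  ⟨exists_rank, rank_le, fun x hx => (card_iff x hx).mp h⟩

theorem gen_of_quot {G : Type} [Group G] [Finite G] (N : Subgroup G) [N.Normal]
    (hN : N ≤ frattini G) {m : ℕ} (x : Fin m → G)
    (hx : Subgroup.closure (Set.range fun i => (x i : G ⧸ N)) = ⊤) :
    Subgroup.closure (Set.range x) = ⊤ := by
  apply frattini_nongenerating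
  rw [eq_top_iff]
  intro g _
  have h1 : (g : G ⧸ N) ∈ Subgroup.closure (Set.range fun i => (x i : G ⧸ N)) := by
    rw [hx]; exact Subgroup.mem_top _
  have e1 : (Set.range fun i => (x i : G ⧸ N)) = (QuotientGroup.mk' N) '' Set.range x := by
    rw [← Set.range_comp]; rfl
  rw [e1, ← MonoidHom.map_closure] at h1
  obtain ⟨h, hh, hhg⟩ := h1
  have e2 : h⁻¹ * g ∈ N := QuotientGroup.eq.mp hhg
  have e4 : g = h * (h⁻¹ * g) := by group
  rw [e4]
  exact mul_mem ((le_sup_left : _ ≤ Subgroup.closure (Set.range x) ⊔ frattini G) hh)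
    ((le_sup_right : _ ≤ Subgroup.closure (Set.range x) ⊔ frattini G) (hN e2))

theorem map_comm {G : Type} [Group G] (N : Subgroup G) [N.Normal] :
    (commutator G).map (QuotientGroup.mk' N) = commutator (G ⧸ N) := by
  rw [commutator_def, Subgroup.map_commutator,
    Subgroup.map_top_of_surjective _ (QuotientGroup.mk'_surjective N), commutator_def]

theorem exists_comm_lift {G : Type} [Group G] (N : Subgroup G) [N.Normal] (y : G ⧸ N)
    (hy : y ∈ commutator (G ⧸ N)) : ∃ z ∈ commutator G, (z : G ⧸ N) = y := by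
  rw [← map_comm] at hy
  exact hy

theorem mk_comm {G : Type} [Group G] (N : Subgroup G) [N.Normal] (y : G)
    (hy : y ∈ commutator G) : (y : G ⧸ N) ∈ commutator (G ⧸ N) := by
  rw [← map_comm]
  exact ⟨y, hy, rfl⟩

theorem autC_quot {G : Type} [Group G] (N : Subgroup G) [N.Normal] (α : MulAut G)
    (hα : α ∈ AutC G) : ∃ β ∈ AutC (G ⧸ N), ∀ g : G, β (g : G ⧸ N) = ((α g : G) : G ⧸ N) := by
  have hle : ∀ β ∈ AutC G, ∀ n ∈ N, β n ∈ N := by
    intro β hβ n hn
    obtain ⟨c, hc⟩ := isConj_iff.mp (hβ n)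
    rw [← hc]
    exact Subgroup.Normal.conj_mem inferInstance n hn c
  have hmap : N.map α.toMonoidHom = N := by
    ext n
    constructor
    · rintro ⟨m, hm, rfl⟩
      exact hle α hα m hm
    · intro hn
      refine ⟨α⁻¹ n, hle α⁻¹ ((AutC G).inv_mem hα) n hn, ?_⟩
      exact MulAut.apply_inv_self G α n
  let β : (G ⧸ N) ≃* (G ⧸ N) := QuotientGroup.congr N N α hmap
  refine ⟨β, ?_, fun g => rfl⟩
  intro q
  obtain ⟨g, rfl⟩ := QuotientGroup.mk_surjective q
  obtain ⟨c, hc⟩ := isConj_iff.mp (hα g)
  refine isConj_iff.mpr ⟨(c : G ⧸ N), ?_⟩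
  show ((c * g * c⁻¹ : G) : G ⧸ N) = ((α g : G) : G ⧸ N)
  rw [hc]

theorem Star.quot {G : Type} [Group G] [Finite G] {d : ℕ} (h : Star G d) (N : Subgroup G)
    [N.Normal] (hN : N ≤ frattini G) : Star (G ⧸ N) d := by
  refine ⟨?_, ?_, ?_⟩
  · obtain ⟨x, hx⟩ := h.ex
    refine ⟨fun i => (x i : G ⧸ N), ?_⟩
    have e1 : (Set.range fun i => (x i : G ⧸ N)) = (QuotientGroup.mk' N) '' Set.range x := by
      rw [← Set.range_comp]; rfl
    rw [e1, ← MonoidHom.map_closure, hx,
      Subgroup.map_top_of_surjective _ (QuotientGroup.mk'_surjective N)]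
  · intro m x hx
    choose z hz using fun i => QuotientGroup.mk_surjective (x i)
    refine h.le m z (gen_of_quot N hN z ?_)
    have : (fun i => (z i : G ⧸ N)) = x := funext hz
    rw [this, hx]
  · intro x hx y hy
    choose z hz using fun i => QuotientGroup.mk_surjective (x i)
    choose t ht1 ht2 using fun i => exists_comm_lift N (y i) (hy i)
    have e : (fun i => (z i : G ⧸ N)) = x := funext hz
    obtain ⟨α, hα, hαz⟩ := h.full z (gen_of_quot N hN z (by rw [e, hx])) t ht1
    obtain ⟨β, hβ, hβα⟩ := autC_quot N α hα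
    refine ⟨β, hβ, fun i => ?_⟩
    rw [← hz, hβα, hαz, ← ht2]
    rfl

section Vec

variable {p : ℕ} [hp : Fact p.Prime] {G : Type} [Group G] [Finite G]

/-- exchange: an element outside the Frattini subgroup can replace a member of a generating
family -/
theorem exchange (hG : IsPGroup p G) {d : ℕ} (z : Fin d → G)
    (hz : Subgroup.closure (Set.range z) = ⊤) (u : G) (hu : u ∉ frattini G) :
    ∃ j, Subgroup.closure (Set.range (Function.update z j u)) = ⊤ := by
  classical
  obtain ⟨hF1, hF2⟩ := frattini_facts hG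
  let V := G ⧸ frattini G
  letI : CommGroup V :=
    { (inferInstance : Group (G ⧸ frattini G)) with
      mul_comm := by
        intro a b
        obtain ⟨a, rfl⟩ := QuotientGroup.mk'_surjective (frattini G) a
        obtain ⟨b, rfl⟩ := QuotientGroup.mk'_surjective (frattini G) b
        rw [← commutatorElement_eq_one_iff_mul_comm, ← map_commutatorElement]
        exact (QuotientGroup.eq_one_iff _).mpr (hF1 a b) }
  let π : G →* V := QuotientGroup.mk' (frattini G)
  have hπs : Function.Surjective π := QuotientGroup.mk'_surjective (frattini G)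
  have hexp : ∀ v : V, v ^ p = 1 := by
    intro v
    obtain ⟨a, rfl⟩ := hπs v
    rw [← map_pow]
    exact (QuotientGroup.eq_one_iff _).mpr (hF2 a)
  have hVp : IsPGroup p V := fun v => ⟨1, by rw [pow_one]; exact hexp v⟩
  have hzV : Subgroup.closure (Set.range fun i => π (z i)) = ⊤ := by
    have e1 : Set.range (fun i => π (z i)) = π '' Set.range z := Set.range_comp π z
    rw [e1, ← MonoidHom.map_closure, hz, Subgroup.map_top_of_surjective _ hπs]
  obtain ⟨a, ha⟩ := exists_exp (fun i => π (z i)) (π u) (by rw [hzV]; exact Subgroup.mem_top _)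
  have hex : ∃ j, ¬ (p : ℤ) ∣ a j := by
    by_contra hcon
    push Not at hcon
    apply hu
    have h1 : π u = 1 := by
      rw [ha]
      refine Finset.prod_eq_one (fun i _ => ?_)
      obtain ⟨k, hk⟩ := hcon i
      rw [hk, zpow_mul, zpow_natCast, hexp, one_zpow]
    exact (QuotientGroup.eq_one_iff _).mp h1
  obtain ⟨j, hj⟩ := hex
  refine ⟨j, ?_⟩
  have hV2 : Subgroup.closure (Set.range fun i => π (Function.update z j u i)) = ⊤ := by
    rw [eq_top_iff, ← hzV, Subgroup.closure_le]
    have hmem : ∀ i, i ≠ j → π (z i)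
        ∈ Subgroup.closure (Set.range fun i => π (Function.update z j u i)) := by
      intro i hi
      apply Subgroup.subset_closure
      refine ⟨i, ?_⟩
      show π (Function.update z j u i) = π (z i)
      rw [Function.update_of_ne hi]
    have hmu : π u ∈ Subgroup.closure (Set.range fun i => π (Function.update z j u i)) := by
      apply Subgroup.subset_closure
      refine ⟨j, ?_⟩
      show π (Function.update z j u j) = π u
      rw [Function.update_self]
    rintro _ ⟨i, rfl⟩
    by_cases hi : i = j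
    · subst hi
      refine mem_of_zpow_mem hVp _ _ (a i) hj ?_
      have h2 := Finset.mul_prod_erase Finset.univ (fun k => π (z k) ^ a k) (Finset.mem_univ i)
      rw [← ha] at h2
      have h3 : π (z i) ^ a i = π u * (∏ k ∈ Finset.univ.erase i, π (z k) ^ a k)⁻¹ := by
        rw [← h2, mul_inv_cancel_right]
      show π (z i) ^ a i ∈ _
      rw [h3]
      refine mul_mem hmu (inv_mem (Subgroup.prod_mem _ (fun k hk => ?_)))
      exact zpow_mem (hmem k (Finset.ne_of_mem_erase hk)) _
    · exact hmem i hi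
  exact gen_of_quot (frattini G) le_rfl (Function.update z j u) hV2

theorem Star.a1 (hG : IsPGroup p G) {d : ℕ} (h : Star G d) (x : G) (hx : x ∉ frattini G)
    (y : G) (hy : y ∈ commutator G) : ∃ g : G, ⁅g, x⁆ = y := by
  classical
  obtain ⟨z, hz⟩ := h.ex
  obtain ⟨j, hj⟩ := exchange hG z hz x hx
  obtain ⟨α, hα, hαx⟩ := h.full _ hj (Function.update 1 j y) (by
    intro i
    by_cases hi : i = j
    · subst hi
      rw [Function.update_self]; exact hy
    · rw [Function.update_of_ne hi]; exact one_mem _)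
  have h1 := hαx j
  rw [Function.update_self, Function.update_self] at h1
  obtain ⟨g, hg⟩ := isConj_iff.mp (hα x)
  refine ⟨g, ?_⟩
  rw [commutatorElement_def, hg, h1, mul_inv_cancel_right]

/-- an element which together with all but one member of a minimal generating family generates
the group is not in the Frattini subgroup -/
theorem Star.not_frattini {d : ℕ} (h : Star G d) (x : Fin d → G)
    (hx : Subgroup.closure (Set.range x) = ⊤) (i : Fin d) (v : G)
    (hv : x i ∈ Subgroup.closure (insert v (x '' {i}ᶜ))) : v ∉ frattini G := by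
  intro hvF
  have h1 : Subgroup.closure (x '' {i}ᶜ) ⊔ frattini G = ⊤ := by
    rw [eq_top_iff, ← hx, Subgroup.closure_le]
    rintro _ ⟨k, rfl⟩
    by_cases hk : k = i
    · subst hk
      have h2 : Subgroup.closure (insert v (x '' {k}ᶜ))
          ≤ Subgroup.closure (x '' {k}ᶜ) ⊔ frattini G := by
        rw [Subgroup.closure_le]
        rintro w (rfl | hw)
        · exact (le_sup_right : _ ≤ Subgroup.closure (x '' {k}ᶜ) ⊔ frattini G) hvF
        · exact (le_sup_left : _ ≤ Subgroup.closure (x '' {k}ᶜ) ⊔ frattini G)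
            (Subgroup.subset_closure hw)
      exact h2 hv
    · exact (le_sup_left : _ ≤ Subgroup.closure (x '' {i}ᶜ) ⊔ frattini G)
        (Subgroup.subset_closure ⟨k, hk, rfl⟩)
  have h2 := frattini_nongenerating h1
  cases d with
  | zero => exact i.elim0
  | succ m =>
    have h3 := h.le m (fun k => x (i.succAbove k)) (by
      rw [← h2]
      congr 1
      rw [show (fun k => x (i.succAbove k)) = x ∘ i.succAbove from rfl, Set.range_comp,
        Fin.range_succAbove])
    omega

end Vec

section NLem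

variable {G : Type} [Group G]

theorem nil_le [Group.IsNilpotent G] (A N : Subgroup G) [A.Normal] [N.Normal]
    (h : A ≤ ⁅A, (⊤ : Subgroup G)⁆ ⊔ N) : A ≤ N := by
  have key : ∀ n : ℕ, A ≤ (Subgroup.lowerCentralSeries (⊤ : Subgroup G) n) ⊔ N := by
    intro n
    induction n with
    | zero => exact le_sup_of_le_left le_top
    | succ n ih =>
      refine h.trans (sup_le ?_ le_sup_right)
      rw [Subgroup.commutator_le]
      intro a ha g _
      obtain ⟨l, hl, m, hm, rfl⟩ := Subgroup.mem_sup_of_normal_right.mp (ih ha)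
      have e1 : ⁅l * m, g⁆ = (l * ⁅m, g⁆ * l⁻¹) * ⁅l, g⁆ := by
        simp only [commutatorElement_def]; group
      rw [e1]
      refine mul_mem (Subgroup.mem_sup_right ?_) (Subgroup.mem_sup_left ?_)
      · refine Subgroup.Normal.conj_mem inferInstance _ ?_ l
        have e2 : ⁅m, g⁆ = m * (g * m⁻¹ * g⁻¹) := by
          simp only [commutatorElement_def]; group
        rw [e2]
        exact mul_mem hm (Subgroup.Normal.conj_mem inferInstance _ (inv_mem hm) g)
      · rw [Subgroup.lowerCentralSeries_succ]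
        exact Subgroup.commutator_mem_commutator hl (Subgroup.mem_top g)
  obtain ⟨n, hn⟩ := Subgroup.nilpotent_iff_lowerCentralSeries.mp ‹Group.IsNilpotent G›
  have h1 := key n
  rwa [hn, bot_sup_eq] at h1

/-- a normal subgroup of a finite `p`-group has a normal section of order `p` above any normal
subgroup not containing it, and this section is central -/
theorem exists_N {p : ℕ} [hp : Fact p.Prime] [Finite G] (hG : IsPGroup p G)
    (A F B : Subgroup G) [A.Normal] [hFn : F.Normal] (hAB : A ≤ B) (hFB : F ≤ B)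
    (hAF : ¬ A ≤ F) :
    ∃ N : Subgroup G, N.Normal ∧ F ≤ N ∧ N ≤ B ∧ ¬ A ≤ N ∧ (∀ a ∈ A, ∀ g : G, ⁅g, a⁆ ∈ N) ∧
      (∀ a ∈ A, a ^ p ∈ N) ∧ ∀ a ∈ A, a ∉ N → ∀ b ∈ A, ∃ k : ℤ, b * a ^ k ∈ N := by
  classical
  haveI : Group.IsNilpotent G := hG.isNilpotent
  let S : Set (Subgroup G) := {N | N.Normal ∧ F ≤ N ∧ N ≤ B ∧ ¬ A ≤ N}
  obtain ⟨N, hNS, hmax⟩ := Set.exists_max_image S (fun N => Nat.card N) (Set.toFinite S)
    ⟨F, hFn, le_rfl, hFB, hAF⟩
  obtain ⟨hN, hFN, hNB, hAN⟩ := hNS
  haveI := hN
  have big : ∀ M : Subgroup G, M.Normal → N ≤ M → M ≤ B → ¬ M ≤ N → A ≤ M := by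
    intro M hM hNM hMB hMN
    by_contra hcon
    have h1 := hmax M ⟨hM, hFN.trans hNM, hMB, hcon⟩
    have h2 : N = M := Subgroup.eq_of_le_of_card_ge hNM h1
    exact hMN h2.ge
  have hA1 : ⁅A, (⊤ : Subgroup G)⁆ ≤ N := by
    by_contra hcon
    have h1 : A ≤ ⁅A, (⊤ : Subgroup G)⁆ ⊔ N := by
      refine big _ inferInstance le_sup_right (sup_le ?_ hNB) ?_
      · exact (Subgroup.commutator_le_left A ⊤).trans hAB
      · intro h; exact hcon (le_sup_left.trans h)
    exact hAN (nil_le A N h1)
  have hcen : ∀ a ∈ A, ∀ g : G, ⁅g, a⁆ ∈ N := by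
    intro a ha g
    have h1 : ⁅a, g⁆ ∈ N := hA1 (Subgroup.commutator_mem_commutator ha (Subgroup.mem_top g))
    rw [← commutatorElement_inv]
    exact inv_mem h1
  have hz : ∀ a ∈ A, a ∉ N → A ≤ N ⊔ Subgroup.zpowers a := by
    intro a ha haN
    refine big _ ?_ le_sup_left (sup_le hNB ?_) ?_
    · refine ⟨fun n hn g => ?_⟩
      obtain ⟨m, hm, b, hb, rfl⟩ := Subgroup.mem_sup_of_normal_left.mp hn
      obtain ⟨k, rfl⟩ := hb
      have e1 : g * (m * (fun x => a ^ x) k) * g⁻¹ = (g * m * g⁻¹) * ⁅g, a ^ k⁆ * a ^ k := by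
        simp only [commutatorElement_def]; group
      rw [e1]
      refine mul_mem (mul_mem ?_ ?_) ?_
      · exact Subgroup.mem_sup_left (Subgroup.Normal.conj_mem inferInstance _ hm g)
      · exact Subgroup.mem_sup_left (hcen _ (zpow_mem ha k) g)
      · exact Subgroup.mem_sup_right (Subgroup.zpow_mem_zpowers a k)
    · rw [Subgroup.zpowers_le]; exact hAB ha
    · intro h
      exact haN (h (Subgroup.mem_sup_right (Subgroup.mem_zpowers a)))
  have hpow : ∀ a ∈ A, a ^ p ∈ N := by
    intro a ha
    by_contra hcon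
    have haN : a ∉ N := fun h => hcon (pow_mem h p)
    have h1 := hz (a ^ p) (pow_mem ha p) hcon ha
    obtain ⟨m, hm, b, hb, hmb⟩ := Subgroup.mem_sup_of_normal_left.mp h1
    obtain ⟨k, rfl⟩ := hb
    apply haN
    refine mem_of_zpow_mem hG N a (1 - p * k) ?_ ?_
    · intro hd
      have h2 : (p : ℤ) ∣ 1 := by
        have := dvd_add hd (dvd_mul_right (p : ℤ) k)
        simpa using this
      exact hp.out.one_lt.ne' (Nat.dvd_one.mp (by exact_mod_cast h2))
    · have e1 : a ^ (1 - (p : ℤ) * k) = m := by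
        rw [zpow_sub, zpow_one, zpow_mul, zpow_natCast, mul_inv_eq_iff_eq_mul]
        exact hmb.symm
      rw [e1]; exact hm
  refine ⟨N, hN, hFN, hNB, hAN, hcen, hpow, ?_⟩
  intro a ha haN b hb
  obtain ⟨m, hm, c, hc, hmc⟩ := Subgroup.mem_sup_of_normal_left.mp (hz a ha haN hb)
  obtain ⟨k, rfl⟩ := hc
  refine ⟨-k, ?_⟩
  rw [← hmc]
  show m * a ^ k * a ^ (-k) ∈ N
  rw [zpow_neg, mul_inv_cancel_right]
  exact hm

end NLem

end Pool.Agent.K7.H88.AC
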