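import Mathlib
import Pool.Agent.K7.H88.AC.Basic

/-!
At least three generators: the group has class at most two.
-/

set_option autoImplicit false

open scoped commutatorElement

namespace Pool.Agent.K7.H88.AC

open Pool.Agent.Helper832.AutC

section Hom

variable {G : Type} [Group G]

/-- `g ↦ ⁅g, c⁆` when all these commutators are central -/
def cm (c : G) (hc : ∀ g k : G, ⁅g, c⁆ * k = k * ⁅g, c⁆) : G →* Subgroup.center G :=
  MonoidHom.mk' (fun g => ⟨⁅g, c⁆, Subgroup.mem_center_iff.mpr (fun k => (hc g k).symm)⟩) (by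
    intro g h
    apply Subtype.ext
    show ⁅g * h, c⁆ = ⁅g, c⁆ * ⁅h, c⁆
    have e1 : ⁅g * h, c⁆ = (g * ⁅h, c⁆) * g⁻¹ * ⁅g, c⁆ := by
      simp only [commutatorElement_def]; group
    rw [e1, ← hc h g, mul_inv_cancel_right, hc h])

theorem cm_coe (c : G) (hc : ∀ g k : G, ⁅g, c⁆ * k = k * ⁅g, c⁆) (g : G) :
    ((cm c hc g : Subgroup.center G) : G) = ⁅g, c⁆ := rfl

theorem comm_one (c : G) (hc : ∀ g k : G, ⁅g, c⁆ * k = k * ⁅g, c⁆) (t : G)
    (ht : t ∈ commutator G) : ⁅t, c⁆ = 1 := by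
  have h1 : t ∈ (cm c hc).ker := Abelianization.commutator_subset_ker (cm c hc) ht
  have h2 : cm c hc t = 1 := h1
  rw [← cm_coe c hc, h2]; rfl

theorem comm_mul (c : G) (hc : ∀ g k : G, ⁅g, c⁆ * k = k * ⁅g, c⁆) (g h : G) :
    ⁅g * h, c⁆ = ⁅g, c⁆ * ⁅h, c⁆ := by
  rw [← cm_coe c hc, map_mul]; rfl

theorem comm_zpow (c : G) (hc : ∀ g k : G, ⁅g, c⁆ * k = k * ⁅g, c⁆) (g : G) (n : ℤ) :
    ⁅g ^ n, c⁆ = ⁅g, c⁆ ^ n := by
  rw [← cm_coe c hc, map_zpow]; rfl

/-- a coatom of a p-group and an element outside: every element is a power of the latter modulo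
the former -/
theorem coatom_dec {p : ℕ} [hp : Fact p.Prime] [Finite G] (hG : IsPGroup p G)
    (P : Subgroup G) (hP : IsCoatom P) (v : G) (hv : v ∉ P) (g : G) : ∃ k : ℤ, g * v ^ k ∈ P := by
  have hPn : P.Normal := by
    refine ⟨fun n hn g => ?_⟩
    have e1 : g * n * g⁻¹ = ⁅g, n⁆ * n := by simp only [commutatorElement_def]; group
    rw [e1]
    exact mul_mem ((coatom_facts hG P hP).1 g n) hn
  have h1 : P ⊔ Subgroup.zpowers v = ⊤ := by
    refine hP.2 _ (lt_of_le_of_ne le_sup_left ?_)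
    intro h
    apply hv
    rw [h]
    exact Subgroup.mem_sup_right (Subgroup.mem_zpowers v)
  have h2 : g ∈ P ⊔ Subgroup.zpowers v := by rw [h1]; exact Subgroup.mem_top g
  obtain ⟨m, hm, c, ⟨k, rfl⟩, rfl⟩ := Subgroup.mem_sup_of_normal_left.mp h2
  refine ⟨-k, ?_⟩
  show m * v ^ k * v ^ (-k) ∈ P
  rw [zpow_neg, mul_inv_cancel_right]
  exact hm

end Hom

variable {p : ℕ} [hp : Fact p.Prime] {G : Type} [Group G] [Finite G]

theorem core3 (hG : IsPGroup p G) {d : ℕ} (hd : 3 ≤ d) (h : Star G d)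
    (H1 : ∀ c ∈ commutator G, ∀ g k : G, ⁅g, c⁆ * k = k * ⁅g, c⁆)
    (H2 : ∀ c ∈ commutator G, ∀ g : G, ⁅g, c⁆ ^ p = 1) :
    ∀ u : G, ∀ y ∈ commutator G, ⁅y, u⁆ = 1 := by
  classical
  intro u y hy
  -- the derived subgroup is abelian
  have hab : ∀ s ∈ commutator G, ∀ t ∈ commutator G, s * t = t * s := by
    intro s hs t ht
    exact commutatorElement_eq_one_iff_mul_comm.mp (comm_one t (H1 t ht) s hs)
  -- p-th powers of elements of the derived subgroup are central
  have hpc : ∀ c ∈ commutator G, c ^ p ∈ Subgroup.center G := by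
    intro c hc
    rw [Subgroup.mem_center_iff]
    intro g
    have h1 := H1 c hc g
    have e1 : g * c * g⁻¹ = ⁅g, c⁆ * c := by simp only [commutatorElement_def]; group
    have e2 : g * c ^ p * g⁻¹ = (⁅g, c⁆ * c) ^ p := by rw [← e1, conj_pow]
    have h2 : Commute ⁅g, c⁆ c := h1 c
    rw [h2.mul_pow, H2 c hc g, one_mul] at e2
    rw [← mul_inv_eq_iff_eq_mul]
    exact e2
  -- a maximal subgroup containing u
  have hu : Subgroup.zpowers u ≠ ⊤ := by
    intro hu
    have h1 := h.le 1 (fun _ => u) (by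
      rw [Set.range_const, ← Subgroup.zpowers_eq_closure, hu])
    omega
  obtain ⟨P, hP, huP⟩ : ∃ P : Subgroup G, IsCoatom P ∧ Subgroup.zpowers u ≤ P := by
    rcases eq_top_or_exists_le_coatom (Subgroup.zpowers u) with h1 | h1
    · exact absurd h1 hu
    · exact h1
  have huP' : u ∈ P := huP (Subgroup.mem_zpowers u)
  obtain ⟨hPc, hPp⟩ := coatom_facts hG P hP
  -- a generating family
  obtain ⟨z, hz⟩ := h.ex
  have hj : ∃ j, z j ∉ P := by
    by_contra hcon
    push Not at hcon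
    apply hP.1
    rw [eq_top_iff, ← hz, Subgroup.closure_le]
    rintro _ ⟨i, rfl⟩
    exact hcon i
  obtain ⟨j, hj⟩ := hj
  choose k hk using fun i => coatom_dec hG P hP (z j) hj (z i)
  let x : Fin d → G := fun i => if i = j then z j else z i * z j ^ k i
  have hxj : x j = z j := if_pos rfl
  have hxi : ∀ i, i ≠ j → x i = z i * z j ^ k i := fun i hi => if_neg hi
  have hxP : ∀ i, i ≠ j → x i ∈ P := fun i hi => by rw [hxi i hi]; exact hk i
  have hxjP : x j ∉ P := by rw [hxj]; exact hj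
  have hx : Subgroup.closure (Set.range x) = ⊤ := by
    rw [eq_top_iff, ← hz, Subgroup.closure_le]
    have m1 : z j ∈ Subgroup.closure (Set.range x) := by
      rw [← hxj]; exact Subgroup.subset_closure ⟨j, rfl⟩
    rintro _ ⟨i, rfl⟩
    by_cases hi : i = j
    · rw [hi]; exact m1
    · have e1 : z i = x i * (z j ^ k i)⁻¹ := by rw [hxi i hi, mul_inv_cancel_right]
      rw [e1]
      exact mul_mem (Subgroup.subset_closure ⟨i, rfl⟩) (inv_mem (zpow_mem m1 _))
  -- the automorphism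
  obtain ⟨α, hα, hαx⟩ := h.full x hx (Function.update 1 j y) (by
    intro i
    by_cases hi : i = j
    · subst hi
      rw [Function.update_self]; exact hy
    · rw [Function.update_of_ne hi]; exact one_mem _)
  have hαj : α (x j) = y * x j := by rw [hαx, Function.update_self]
  have hαi : ∀ i, i ≠ j → α (x i) = x i := fun i hi => by
    rw [hαx, Function.update_of_ne hi, Pi.one_apply, one_mul]
  let π := QuotientGroup.mk' (Subgroup.center G)
  have hπ1 : ∀ g : G, π g = 1 ↔ g ∈ Subgroup.center G := fun g => QuotientGroup.eq_one_iff g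
  let P0 : Subgroup G := MonoidHom.eqLocus (π.comp (α : G →* G)) π
  have hP0 : ∀ g, g ∈ P0 ↔ π (α g) = π g := fun g => Iff.rfl
  have hP0' : ∀ g ∈ P0, ∃ t ∈ Subgroup.center G, α g = t * g := by
    intro g hg
    refine ⟨α g * g⁻¹, ?_, by group⟩
    rw [← hπ1, map_mul, map_inv, (hP0 g).mp hg, mul_inv_cancel]
  have hP0c : ∀ c ∈ commutator G, c ∈ P0 := by
    intro c hc
    rw [hP0]
    obtain ⟨g, hg⟩ := isConj_iff.mp (hα c)
    have e1 : α c = ⁅g, c⁆ * c := by rw [← hg, commutatorElement_def]; group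
    rw [e1, map_mul, (hπ1 _).mpr (Subgroup.mem_center_iff.mpr (fun k => (H1 c hc g k).symm)),
      one_mul]
  have hP0p : ∀ g : G, g ^ p ∈ P0 := by
    intro g
    rw [hP0]
    obtain ⟨c, hc⟩ := isConj_iff.mp (hα g)
    have e1 : α g = ⁅c, g⁆ * g := by rw [← hc, commutatorElement_def]; group
    have e2 : Commute (π ⁅c, g⁆) (π g) := by
      show _ * _ = _ * _
      rw [← map_mul, ← map_mul]
      have e3 : ⁅c, g⁆ * g = ⁅g, ⁅c, g⁆⁆⁻¹ * (g * ⁅c, g⁆) := by
        simp only [commutatorElement_def]; group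
      rw [e3, map_mul, map_inv, (hπ1 _).mpr (Subgroup.mem_center_iff.mpr
        (fun k => (H1 _ (comm_mem c g) g k).symm)), inv_one, one_mul]
    rw [map_pow, e1, map_pow, map_mul, e2.mul_pow, ← map_pow, (hπ1 _).mpr (hpc _ (comm_mem c g)),
      one_mul, map_pow]
  -- P ≤ P0
  have hPP0 : P ≤ P0 := by
    let T := P0 ⊓ P
    have hTn : T.Normal := by
      refine ⟨fun n hn g => ?_⟩
      have e1 : g * n * g⁻¹ = ⁅g, n⁆ * n := by simp only [commutatorElement_def]; group
      rw [e1]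
      exact mul_mem ⟨hP0c _ (comm_mem g n), hPc g n⟩ hn
    have h1 : T ⊔ Subgroup.zpowers (x j) = ⊤ := by
      rw [eq_top_iff, ← hx, Subgroup.closure_le]
      rintro _ ⟨i, rfl⟩
      by_cases hi : i = j
      · rw [hi]; exact Subgroup.mem_sup_right (Subgroup.mem_zpowers _)
      · refine Subgroup.mem_sup_left ⟨?_, hxP i hi⟩
        show π (α (x i)) = π (x i)
        rw [hαi i hi]
    intro g hg
    have h2 : g ∈ T ⊔ Subgroup.zpowers (x j) := by rw [h1]; exact Subgroup.mem_top g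
    obtain ⟨m, hm, c, ⟨k, rfl⟩, rfl⟩ := Subgroup.mem_sup_of_normal_left.mp h2
    have h3 : x j ^ k ∈ P := (Subgroup.mul_mem_cancel_left P hm.2).mp hg
    have h4 : (p : ℤ) ∣ k := by
      by_contra hcon
      exact hxjP (mem_of_zpow_mem hG P (x j) k hcon h3)
    obtain ⟨l, rfl⟩ := h4
    refine mul_mem hm.1 ?_
    show x j ^ ((p : ℤ) * l) ∈ P0
    rw [zpow_mul, zpow_natCast]
    exact zpow_mem (hP0p _) l
  -- the fixed points
  let Fx : Subgroup G := MonoidHom.eqLocus (α : G →* G) (MonoidHom.id G)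
  have hFx : ∀ g, g ∈ Fx ↔ α g = g := fun g => Iff.rfl
  have hFx1 : ∀ g ∈ P, ∀ h ∈ P, ⁅g, h⁆ ∈ Fx := by
    intro g hg h hh
    obtain ⟨s, hs, hsg⟩ := hP0' g (hPP0 hg)
    obtain ⟨t, ht, hth⟩ := hP0' h (hPP0 hh)
    have hs' := Subgroup.mem_center_iff.mp hs
    have ht' := Subgroup.mem_center_iff.mp ht
    rw [hFx, map_commutatorElement, hsg, hth]
    have e1 : ⁅s * g, t * h⁆ = s * (g * t) * h * g⁻¹ * s⁻¹ * h⁻¹ * t⁻¹ := by
      rw [commutatorElement_def]; group
    have e2 : s * (g * t) * h * g⁻¹ * s⁻¹ * h⁻¹ * t⁻¹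
        = (s * ((t * g) * h * g⁻¹ * s⁻¹ * h⁻¹)) * t⁻¹ := by rw [ht' g]; group
    rw [e1, e2, ← hs' ((t * g) * h * g⁻¹ * s⁻¹ * h⁻¹)]
    have e3 : t * g * h * g⁻¹ * s⁻¹ * h⁻¹ * s * t⁻¹
        = t * (g * h * g⁻¹ * (s⁻¹ * (h⁻¹ * s))) * t⁻¹ := by group
    rw [e3, hs' h⁻¹, inv_mul_cancel_left, ← ht' (g * h * g⁻¹ * h⁻¹), mul_inv_cancel_right,
      commutatorElement_def]
  have hFx2 : ∀ c ∈ commutator G, ∀ g : G, ⁅g, c⁆ ∈ Fx := by
    intro c hc g
    rw [hFx]
    obtain ⟨k, hk⟩ := isConj_iff.mp (hα ⁅g, c⁆)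
    rw [← hk, ← H1 c hc g k, mul_inv_cancel_right]
  have hFx3 : ∀ c ∈ commutator G, c ^ p ∈ Fx := by
    intro c hc
    rw [hFx]
    obtain ⟨k, hk⟩ := isConj_iff.mp (hα (c ^ p))
    rw [← hk, Subgroup.mem_center_iff.mp (hpc c hc) k, mul_inv_cancel_right]
  -- the derived subgroup is fixed
  have hmain : commutator G ≤ Fx := by
    by_contra hcon
    let F := Fx ⊓ commutator G
    haveI hFn : F.Normal := by
      refine ⟨fun n hn g => ?_⟩
      have e1 : g * n * g⁻¹ = ⁅g, n⁆ * n := by simp only [commutatorElement_def]; group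
      rw [e1]
      exact mul_mem ⟨hFx2 n hn.2 g, comm_mem g n⟩ hn
    obtain ⟨N, hN, hFN, hNB, hAN, -, -, hN3⟩ := exists_N hG (commutator G) F (commutator G) le_rfl
      inf_le_right (fun h => hcon (h.trans inf_le_left))
    haveI := hN
    let ρ := QuotientGroup.mk' N
    have hρ1 : ∀ g : G, ρ g = 1 ↔ g ∈ N := fun g => QuotientGroup.eq_one_iff g
    have hρs : Function.Surjective ρ := QuotientGroup.mk'_surjective N
    have hQ : ∀ a b c : G ⧸ N, ⁅⁅a, b⁆, c⁆ = 1 := by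
      intro a b c
      obtain ⟨a, rfl⟩ := hρs a
      obtain ⟨b, rfl⟩ := hρs b
      obtain ⟨c, rfl⟩ := hρs c
      rw [← map_commutatorElement, ← map_commutatorElement, hρ1, ← commutatorElement_inv]
      exact inv_mem (hFN ⟨hFx2 _ (comm_mem a b) c, comm_mem _ _⟩)
    -- two further indices
    obtain ⟨i1, i2, hi1, hi2, hi12⟩ : ∃ i1 i2 : Fin d, i1 ≠ j ∧ i2 ≠ j ∧ i1 ≠ i2 := by
      have hc1 : 2 ≤ (Finset.univ.erase j).card := by
        rw [Finset.card_erase_of_mem (Finset.mem_univ j), Finset.card_univ, Fintype.card_fin]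
        omega
      obtain ⟨a, ha, b, hb, hab⟩ := Finset.one_lt_card.mp (by omega : 1 < (Finset.univ.erase j).card)
      exact ⟨a, b, Finset.ne_of_mem_erase ha, Finset.ne_of_mem_erase hb, hab⟩
    -- an element outside the Frattini subgroup
    obtain ⟨v, hvP, hvF, hv⟩ : ∃ v ∈ P, v ∉ frattini G ∧ ⁅x j, v⁆ ∈ N := by
      by_cases h2 : ⁅x j, x i2⁆ ∈ N
      · refine ⟨x i2, hxP i2 hi2, ?_, h2⟩
        exact h.not_frattini x hx i2 (x i2) (Subgroup.subset_closure (Set.mem_insert _ _))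
      · obtain ⟨k, hk⟩ := hN3 _ (comm_mem (x j) (x i2)) h2 _ (comm_mem (x j) (x i1))
        refine ⟨x i1 * x i2 ^ k, mul_mem (hxP i1 hi1) (zpow_mem (hxP i2 hi2) k), ?_, ?_⟩
        · refine h.not_frattini x hx i1 _ ?_
          have e1 : x i1 = (x i1 * x i2 ^ k) * (x i2 ^ k)⁻¹ := by group
          rw [e1]
          refine mul_mem (Subgroup.subset_closure ?_) (inv_mem (zpow_mem
            (Subgroup.subset_closure ?_) k))
          · rw [← e1]
            exact Set.mem_insert _ _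
          · exact Set.mem_insert_of_mem _ ⟨i2, fun hh => hi12 hh.symm, rfl⟩
        · rw [← hρ1, map_commutatorElement, map_mul, map_zpow]
          have h3 : pr hQ (ρ (x j)) (ρ (x i1) * ρ (x i2) ^ k) = 1 := by
            rw [map_mul, map_zpow]
            apply Subtype.ext
            show ⁅ρ (x j), ρ (x i1)⁆ * ⁅ρ (x j), ρ (x i2)⁆ ^ k = 1
            rw [← map_commutatorElement, ← map_commutatorElement, ← map_zpow, ← map_mul, hρ1]
            exact hk
          exact (pr_eq_one_iff hQ _ _).mp h3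
    apply hAN
    intro c hc
    obtain ⟨g, hg⟩ := h.a1 hG v hvF c hc
    rw [← hg, ← hρ1, map_commutatorElement]
    obtain ⟨k, hk⟩ := coatom_dec hG P hP (x j) hxjP g
    have h1 : pr hQ (ρ (x j)) (ρ v) = 1 := by
      rw [pr_eq_one_iff, ← map_commutatorElement, hρ1]; exact hv
    have h2 : pr hQ (ρ (g * x j ^ k)) (ρ v) = 1 := by
      rw [pr_eq_one_iff, ← map_commutatorElement, hρ1]
      exact hFN ⟨hFx1 _ hk _ hvP, comm_mem _ _⟩
    rw [map_mul, pr_mul_left, map_zpow, pr_zpow, h1, one_zpow, mul_one, pr_eq_one_iff] at h2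
    exact h2
  -- conclusion
  obtain ⟨t, ht, htu⟩ := hP0' u (hPP0 huP')
  have h1 : α ⁅x j, u⁆ = ⁅x j, u⁆ := hmain (comm_mem _ _)
  rw [map_commutatorElement, hαj, htu] at h1
  have ht' := Subgroup.mem_center_iff.mp ht
  have e1 : ⁅y * x j, t * u⁆ = ⁅y * x j, u⁆ := by
    have e2 : ⁅y * x j, t * u⁆ = ((y * x j) * t) * u * (y * x j)⁻¹ * u⁻¹ * t⁻¹ := by
      rw [commutatorElement_def]; group
    rw [e2, ht']
    have e3 : t * (y * x j) * u * (y * x j)⁻¹ * u⁻¹ * t⁻¹
        = (t * ((y * x j) * u * (y * x j)⁻¹ * u⁻¹)) * t⁻¹ := by group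
    rw [e3, ← ht', mul_inv_cancel_right, commutatorElement_def]
  have e4 : ⁅y * x j, u⁆ = y * ⁅x j, u⁆ * y⁻¹ * ⁅y, u⁆ := by
    simp only [commutatorElement_def]; group
  rw [e1, e4, hab y hy _ (comm_mem _ _), mul_inv_cancel_right] at h1
  exact mul_eq_left.mp h1

/-- at least three generators: the group has class at most two -/
theorem class_two (hG : IsPGroup p G) {d : ℕ} (hd : 3 ≤ d) (h : Star G d) :
    ∀ a b c : G, ⁅⁅a, b⁆, c⁆ = 1 := by
  classical
  let A : Subgroup G := ⁅commutator G, (⊤ : Subgroup G)⁆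
  by_cases hA : A ≤ ⊥
  · intro a b c
    have h1 : ⁅⁅a, b⁆, c⁆ ∈ A :=
      Subgroup.commutator_mem_commutator (comm_mem a b) (Subgroup.mem_top c)
    exact (Subgroup.mem_bot).mp (hA h1)
  · exfalso
    obtain ⟨hF1, hF2⟩ := frattini_facts hG
    have hcF : commutator G ≤ frattini G := by
      rw [commutator_def, Subgroup.commutator_le]
      intro a _ b _
      exact hF1 a b
    have hAc : A ≤ commutator G := Subgroup.commutator_le_left _ _
    obtain ⟨N, hN, -, hNB, hAN, hN1, hN2, -⟩ := exists_N hG A ⊥ A le_rfl bot_le hA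
    haveI := hN
    have hst : Star (G ⧸ N) d := h.quot N (hNB.trans (hAc.trans hcF))
    have hmemA : ∀ c ∈ commutator G, ∀ g : G, ⁅g, c⁆ ∈ A := by
      intro c hc g
      rw [← commutatorElement_inv]
      exact inv_mem (Subgroup.commutator_mem_commutator hc (Subgroup.mem_top g))
    have hmk : ∀ g : G, (g : G ⧸ N) = 1 ↔ g ∈ N := fun g => QuotientGroup.eq_one_iff g
    have key := core3 (hG.to_quotient N) hd hst (by
      intro c hc g k
      obtain ⟨c, hc', rfl⟩ := exists_comm_lift N c hc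
      obtain ⟨g, rfl⟩ := QuotientGroup.mk_surjective g
      obtain ⟨k, rfl⟩ := QuotientGroup.mk_surjective k
      rw [← commutatorElement_eq_one_iff_mul_comm]
      show ((⁅⁅g, c⁆, k⁆ : G) : G ⧸ N) = 1
      rw [hmk, ← commutatorElement_inv]
      exact inv_mem (hN1 _ (hmemA c hc' g) k)) (by
      intro c hc g
      obtain ⟨c, hc', rfl⟩ := exists_comm_lift N c hc
      obtain ⟨g, rfl⟩ := QuotientGroup.mk_surjective g
      show ((⁅g, c⁆ ^ p : G) : G ⧸ N) = 1
      rw [hmk]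
      exact hN2 _ (hmemA c hc' g))
    apply hAN
    show ⁅commutator G, (⊤ : Subgroup G)⁆ ≤ N
    rw [Subgroup.commutator_le]
    intro c hc g _
    rw [← hmk]
    exact key (g : G ⧸ N) (c : G ⧸ N) (mk_comm N c hc)

end Pool.Agent.K7.H88.AC
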