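import Mathlib
import Pool.Agent.K7.H88.AC.NecThree

/-!
Two-generator p-groups: preliminaries.
-/

set_option autoImplicit false

open scoped commutatorElement

namespace Pool.Agent.K7.H88.AC

open Pool.Agent.Helper832.AutC

section Gen

variable {G : Type} [Group G]

theorem gen_change {x y x' y' : G} (h : Subgroup.closure {x, y} = ⊤)
    (hx : x ∈ Subgroup.closure {x', y'}) (hy : y ∈ Subgroup.closure {x', y'}) :
    Subgroup.closure {x', y'} = ⊤ := by
  rw [eq_top_iff, ← h, Subgroup.closure_le]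
  rintro _ (rfl | rfl)
  · exact hx
  · exact hy

theorem mem_l (x y : G) : x ∈ Subgroup.closure ({x, y} : Set G) :=
  Subgroup.subset_closure (Or.inl rfl)

theorem mem_r (x y : G) : y ∈ Subgroup.closure ({x, y} : Set G) :=
  Subgroup.subset_closure (Or.inr rfl)

theorem gen_swap {x y : G} (h : Subgroup.closure {x, y} = ⊤) : Subgroup.closure {y, x} = ⊤ :=
  gen_change h (mem_r y x) (mem_l y x)

/-- `(x, y) → (y x ^ k, x)` -/
theorem gen_tw {x y : G} (h : Subgroup.closure {x, y} = ⊤) (k : ℤ) :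
    Subgroup.closure {y * x ^ k, x} = ⊤ := by
  refine gen_change h (mem_r _ _) ?_
  have e : y = (y * x ^ k) * (x ^ k)⁻¹ := by group
  rw [e]
  exact mul_mem (by rw [← e]; exact mem_l _ _) (inv_mem (zpow_mem (mem_r _ _) k))

/-- `(x, y) → (x y ^ k, y)` -/
theorem gen_tw' {x y : G} (h : Subgroup.closure {x, y} = ⊤) (k : ℤ) :
    Subgroup.closure {x * y ^ k, y} = ⊤ := gen_tw (gen_swap h) k

theorem nf2 {x y : G} (h : Subgroup.closure {x, y} = ⊤) (g : G) :
    ∃ t ∈ commutator G, ∃ i j : ℤ, g = t * y ^ i * x ^ j := by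
  have hg : g ∈ Subgroup.closure ({x, y} : Set G) := by rw [h]; exact Subgroup.mem_top g
  have step : ∀ (t : G) (_ : t ∈ commutator G) (i j : ℤ) (e : ℤ),
      ∃ t' ∈ commutator G, t * y ^ i * x ^ j * y ^ e = t' * y ^ (i + e) * x ^ j := by
    intro t ht i j e
    refine ⟨t * (y ^ i * ⁅x ^ j, y ^ e⁆ * (y ^ i)⁻¹), mul_mem ht ?_, ?_⟩
    · exact Subgroup.Normal.conj_mem inferInstance _ (comm_mem _ _) _
    · rw [commutatorElement_def, zpow_add]; group
  induction hg using Subgroup.closure_induction_right with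
  | one => exact ⟨1, one_mem _, 0, 0, by simp⟩
  | mul_right g _ s hs ih =>
    obtain ⟨t, ht, i, j, rfl⟩ := ih
    rcases hs with rfl | rfl
    · exact ⟨t, ht, i, j + 1, by rw [zpow_add_one, mul_assoc (t * y ^ i)]⟩
    · obtain ⟨t', ht', e⟩ := step t ht i j 1
      refine ⟨t', ht', i + 1, j, ?_⟩
      rw [← e, zpow_one]
  | mul_inv_cancel g _ s hs ih =>
    obtain ⟨t, ht, i, j, rfl⟩ := ih
    rcases hs with rfl | rfl
    · exact ⟨t, ht, i, j - 1, by rw [zpow_sub_one, mul_assoc (t * y ^ i)]⟩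
    · obtain ⟨t', ht', e⟩ := step t ht i j (-1)
      refine ⟨t', ht', i + -1, j, ?_⟩
      rw [← e, zpow_neg_one]

theorem comm_le2 (N : Subgroup G) [N.Normal] {x y : G} (h : Subgroup.closure {x, y} = ⊤)
    (hN : ⁅y, x⁆ ∈ N) : commutator G ≤ N := by
  let π := QuotientGroup.mk' N
  have hπ : ∀ g : G, π g = 1 ↔ g ∈ N := fun g => QuotientGroup.eq_one_iff g
  have hxy : π x * π y = π y * π x := by
    symm
    rw [← commutatorElement_eq_one_iff_mul_comm, ← map_commutatorElement, hπ]
    exact hN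
  have hg2 : Subgroup.closure ({π x, π y} : Set (G ⧸ N)) = ⊤ := by
    have e1 : ({π x, π y} : Set _) = π '' {x, y} := by rw [Set.image_pair]
    rw [e1, ← MonoidHom.map_closure, h,
      Subgroup.map_top_of_surjective _ (QuotientGroup.mk'_surjective N)]
  have hcen : ∀ q : G ⧸ N, q * π x = π x * q ∧ q * π y = π y * q := by
    have h1 : (⊤ : Subgroup (G ⧸ N)) ≤ Subgroup.centralizer {π x, π y} := by
      rw [← hg2, Subgroup.closure_le]
      rintro _ (rfl | rfl)
      · rw [SetLike.mem_coe, Subgroup.mem_centralizer_iff]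
        rintro _ (rfl | rfl)
        · rfl
        · exact hxy.symm
      · rw [SetLike.mem_coe, Subgroup.mem_centralizer_iff]
        rintro _ (rfl | rfl)
        · exact hxy
        · rfl
    intro q
    have h2 := Subgroup.mem_centralizer_iff.mp (h1 (Subgroup.mem_top q))
    exact ⟨(h2 _ (Or.inl rfl)).symm, (h2 _ (Or.inr rfl)).symm⟩
  have hcen2 : (⊤ : Subgroup (G ⧸ N)) ≤ Subgroup.center (G ⧸ N) := by
    rw [← hg2, Subgroup.closure_le]
    rintro _ (rfl | rfl)
    · rw [SetLike.mem_coe, Subgroup.mem_center_iff]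
      exact fun q => (hcen q).1
    · rw [SetLike.mem_coe, Subgroup.mem_center_iff]
      exact fun q => (hcen q).2
  rw [commutator_def, Subgroup.commutator_le]
  intro g _ k _
  rw [← hπ, map_commutatorElement, commutatorElement_eq_one_iff_mul_comm]
  exact ((Subgroup.mem_center_iff.mp (hcen2 (Subgroup.mem_top (π g)))) (π k)).symm

theorem g3_mem {c : G} (hc : c ∈ commutator G) (g : G) :
    ⁅g, c⁆ ∈ ⁅commutator G, (⊤ : Subgroup G)⁆ := by
  rw [← commutatorElement_inv]
  exact inv_mem (Subgroup.commutator_mem_commutator hc (Subgroup.mem_top g))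

theorem g3_le : ⁅commutator G, (⊤ : Subgroup G)⁆ ≤ commutator G :=
  Subgroup.commutator_le_left _ _

theorem g3_le_iff (N : Subgroup G) :
    ⁅commutator G, (⊤ : Subgroup G)⁆ ≤ N ↔ ∀ c ∈ commutator G, ∀ g : G, ⁅g, c⁆ ∈ N := by
  constructor
  · intro h c hc g
    exact h (g3_mem hc g)
  · intro h
    rw [Subgroup.commutator_le]
    intro c hc g _
    rw [← commutatorElement_inv]
    exact inv_mem (h c hc g)

theorem comm_dec {x y : G} (h : Subgroup.closure {x, y} = ⊤) :
    commutator G ≤ Subgroup.zpowers ⁅y, x⁆ ⊔ ⁅commutator G, (⊤ : Subgroup G)⁆ := by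
  haveI : (Subgroup.zpowers ⁅y, x⁆ ⊔ ⁅commutator G, (⊤ : Subgroup G)⁆).Normal := by
    refine ⟨fun n hn g => ?_⟩
    have e1 : g * n * g⁻¹ = ⁅g, n⁆ * n := by simp only [commutatorElement_def]; group
    rw [e1]
    refine mul_mem (Subgroup.mem_sup_right (g3_mem ?_ g)) hn
    have h2 : Subgroup.zpowers ⁅y, x⁆ ⊔ ⁅commutator G, (⊤ : Subgroup G)⁆ ≤ commutator G := by
      refine sup_le ?_ g3_le
      rw [Subgroup.zpowers_le]
      exact comm_mem _ _
    exact h2 hn
  exact comm_le2 _ h (Subgroup.mem_sup_left (Subgroup.mem_zpowers _))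

/-- every element of the derived subgroup is a power of `⁅y, x⁆` times an element of `γ₃` -/
theorem comm_dec' {x y : G} (h : Subgroup.closure {x, y} = ⊤) (c : G) (hc : c ∈ commutator G) :
    ∃ k : ℤ, ∃ s ∈ ⁅commutator G, (⊤ : Subgroup G)⁆, c = ⁅y, x⁆ ^ k * s := by
  obtain ⟨m, ⟨k, rfl⟩, s, hs, rfl⟩ := Subgroup.mem_sup_of_normal_right.mp (comm_dec h hc)
  exact ⟨k, s, hs, rfl⟩

/-- the subgroup generated by the `p`-th powers and the commutators of the derived subgroup -/
def FF (p : ℕ) (G : Type) [Group G] : Subgroup G :=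
  Subgroup.closure {t | ∃ c ∈ commutator G, t = c ^ p} ⊔ ⁅commutator G, commutator G⁆

theorem FF_le (p : ℕ) : FF p G ≤ commutator G := by
  refine sup_le ?_ ?_
  · rw [Subgroup.closure_le]
    rintro _ ⟨c, hc, rfl⟩
    exact pow_mem hc p
  · exact Subgroup.commutator_le_left _ _

theorem closure_pow_normal (p : ℕ) :
    (Subgroup.closure {t : G | ∃ c ∈ commutator G, t = c ^ p}).Normal := by
  refine ⟨fun n hn g => ?_⟩
  induction hn using Subgroup.closure_induction with
  | mem t ht =>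
    obtain ⟨c, hc, rfl⟩ := ht
    apply Subgroup.subset_closure
    refine ⟨g * c * g⁻¹, Subgroup.Normal.conj_mem inferInstance _ hc _, ?_⟩
    rw [conj_pow]
  | one => rw [mul_one, mul_inv_cancel]; exact one_mem _
  | mul a b _ _ ha hb =>
    have : g * (a * b) * g⁻¹ = (g * a * g⁻¹) * (g * b * g⁻¹) := by group
    rw [this]; exact mul_mem ha hb
  | inv a _ ha =>
    have : g * a⁻¹ * g⁻¹ = (g * a * g⁻¹)⁻¹ := by group
    rw [this]; exact inv_mem ha

instance FF_normal (p : ℕ) : (FF p G).Normal := by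
  haveI := closure_pow_normal (G := G) p
  unfold FF
  infer_instance

theorem cyc_of {p : ℕ} [hp : Fact p.Prime] [Finite G] (hG : IsPGroup p G) (c : G)
    (hc : c ∈ commutator G) (h : commutator G ≤ Subgroup.zpowers c ⊔ FF p G) :
    commutator G = Subgroup.zpowers c := by
  let c' : commutator G := ⟨c, hc⟩
  have hH : IsPGroup p (commutator G) := hG.to_subgroup _
  have h1 : Subgroup.zpowers c' = ⊤ := by
    rcases eq_top_or_exists_le_coatom (Subgroup.zpowers c') with h1 | ⟨M, hM, hcM⟩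
    · exact h1
    · exfalso
      obtain ⟨hM1, hM2⟩ := coatom_facts hH M hM
      have hcM' : c' ∈ M := hcM (Subgroup.mem_zpowers c')
      have h2 : commutator G ≤ M.map (commutator G).subtype := by
        refine h.trans (sup_le ?_ (sup_le ?_ ?_))
        · rw [Subgroup.zpowers_le]
          exact ⟨c', hcM', rfl⟩
        · rw [Subgroup.closure_le]
          rintro _ ⟨s, hs, rfl⟩
          exact ⟨⟨s, hs⟩ ^ p, hM2 _, rfl⟩
        · rw [Subgroup.commutator_le]
          intro a ha b hb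
          exact ⟨⁅⟨a, ha⟩, ⟨b, hb⟩⁆, hM1 _ _, rfl⟩
      apply hM.1
      rw [eq_top_iff]
      rintro ⟨s, hs⟩ _
      obtain ⟨s', hs', e⟩ := h2 hs
      have e' : s' = ⟨s, hs⟩ := Subtype.ext e
      rwa [e'] at hs'
  apply le_antisymm
  · intro s hs
    have h2 : (⟨s, hs⟩ : commutator G) ∈ Subgroup.zpowers c' := by rw [h1]; exact Subgroup.mem_top _
    obtain ⟨k, hk⟩ := h2
    exact ⟨k, congrArg Subtype.val hk⟩
  · rw [Subgroup.zpowers_le]; exact hc

end Gen

section StarTwo

variable {p : ℕ} [hp : Fact p.Prime] {G : Type} [Group G] [Finite G]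

omit [Finite G] in
theorem range_pair (x y : G) : Set.range ![x, y] = {x, y} := by
  ext g
  constructor
  · rintro ⟨i, rfl⟩
    fin_cases i
    · exact Or.inl rfl
    · exact Or.inr rfl
  · rintro (rfl | rfl)
    · exact ⟨0, rfl⟩
    · exact ⟨1, rfl⟩

omit [Finite G] in
theorem Star.ex2 (h : Star G 2) : ∃ x y : G, Subgroup.closure {x, y} = ⊤ := by
  obtain ⟨z, hz⟩ := h.ex
  refine ⟨z 0, z 1, ?_⟩
  rw [← hz, ← range_pair]
  congr 1
  congr 1
  funext i
  fin_cases i <;> rfl

omit [Finite G] in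
theorem Star.full2 (h : Star G 2) {x y : G} (hxy : Subgroup.closure {x, y} = ⊤) (s t : G)
    (hs : s ∈ commutator G) (ht : t ∈ commutator G) :
    ∃ α ∈ AutC G, α x = s * x ∧ α y = t * y := by
  obtain ⟨α, hα, h1⟩ := h.full ![x, y] (by rw [range_pair, hxy]) ![s, t] (by
    intro i
    fin_cases i
    · exact hs
    · exact ht)
  exact ⟨α, hα, h1 0, h1 1⟩

theorem Star.nf_left (h : Star G 2) {x y : G} (hxy : Subgroup.closure {x, y} = ⊤) :
    x ∉ frattini G := by
  intro hx
  have h1 : Subgroup.zpowers y ⊔ frattini G = ⊤ := by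
    rw [eq_top_iff, ← hxy, Subgroup.closure_le]
    rintro _ (rfl | rfl)
    · exact Subgroup.mem_sup_right hx
    · exact Subgroup.mem_sup_left (Subgroup.mem_zpowers _)
  have h2 := frattini_nongenerating h1
  have h3 := h.le 1 (fun _ => y) (by
    rw [Set.range_const, ← Subgroup.zpowers_eq_closure, h2])
  omega

theorem Star.a12 (hG : IsPGroup p G) (h : Star G 2) {x y : G}
    (hxy : Subgroup.closure {x, y} = ⊤) (c : G) (hc : c ∈ commutator G) : ∃ g : G, ⁅g, x⁆ = c :=
  h.a1 hG x (h.nf_left hxy) c hc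

end StarTwo

end Pool.Agent.K7.H88.AC
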