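import Mathlib
import Pool.Agent.K7.H88.AC.TwoGen

/-!
Two-generator p-groups: necessity, odd primes and cyclic derived subgroups.
-/

set_option autoImplicit false

open scoped commutatorElement

namespace Pool.Agent.K7.H88.AC

open Pool.Agent.Helper832.AutC

variable {p : ℕ} [hp : Fact p.Prime] {G : Type} [Group G] [Finite G]

omit [Finite G] in
theorem exists_pair (h : Star G 2)
    (H1 : ∀ c ∈ commutator G, ∀ g k : G, ⁅g, c⁆ * k = k * ⁅g, c⁆)
    (H4 : ∀ a ∈ ⁅commutator G, (⊤ : Subgroup G)⁆, a ≠ 1 →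
      ∀ b ∈ ⁅commutator G, (⊤ : Subgroup G)⁆, ∃ k : ℤ, b * a ^ k = 1) :
    ∃ x y : G, Subgroup.closure {x, y} = ⊤ ∧ ⁅x, ⁅y, x⁆⁆ = 1 := by
  obtain ⟨x0, y0, h0⟩ := h.ex2
  by_cases ha : ⁅x0, ⁅y0, x0⁆⁆ = 1
  · exact ⟨x0, y0, h0, ha⟩
  · obtain ⟨k, hk⟩ := H4 _ (g3_mem (comm_mem y0 x0) x0) ha _ (g3_mem (comm_mem y0 x0) y0)
    refine ⟨y0 * x0 ^ k, x0, gen_tw h0 k, ?_⟩
    have e1 : ⁅x0, y0 * x0 ^ k⁆ = ⁅y0, x0⁆⁻¹ := by
      simp only [commutatorElement_def]; group
    have e2 : ⁅y0 * x0 ^ k, ⁅y0, x0⁆⁆ = 1 := by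
      rw [comm_mul _ (H1 _ (comm_mem y0 x0)), comm_zpow _ (H1 _ (comm_mem y0 x0)), hk]
    rw [e1, commutatorElement_eq_one_iff_mul_comm]
    rw [commutatorElement_eq_one_iff_mul_comm] at e2
    have e3 : Commute (y0 * x0 ^ k) ⁅y0, x0⁆ := e2
    exact e3.inv_right

/-- odd primes, elementary abelian derived subgroup, `γ₃` cyclic and central -/
theorem core2odd (hG : IsPGroup p G) (hp2 : p ≠ 2) (h : Star G 2)
    (H1 : ∀ c ∈ commutator G, ∀ g k : G, ⁅g, c⁆ * k = k * ⁅g, c⁆)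
    (H3 : ∀ c ∈ commutator G, c ^ p = 1)
    (H4 : ∀ a ∈ ⁅commutator G, (⊤ : Subgroup G)⁆, a ≠ 1 →
      ∀ b ∈ ⁅commutator G, (⊤ : Subgroup G)⁆, ∃ k : ℤ, b * a ^ k = 1) :
    ∀ c ∈ commutator G, ∀ g : G, ⁅g, c⁆ = 1 := by
  have hab : ∀ s ∈ commutator G, ∀ t ∈ commutator G, s * t = t * s := by
    intro s hs t ht
    exact commutatorElement_eq_one_iff_mul_comm.mp (comm_one t (H1 t ht) s hs)
  have hg3 : ∀ s ∈ ⁅commutator G, (⊤ : Subgroup G)⁆, ∀ g : G, s * g = g * s := by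
    have h1 : ⁅commutator G, (⊤ : Subgroup G)⁆ ≤ Subgroup.center G := by
      rw [g3_le_iff]
      intro c hc g
      rw [Subgroup.mem_center_iff]
      exact fun k => (H1 c hc g k).symm
    intro s hs g
    exact (Subgroup.mem_center_iff.mp (h1 hs) g).symm
  obtain ⟨x, y, hxy, hx⟩ := exists_pair h H1 H4
  set c := ⁅y, x⁆ with hcdef
  have hc : c ∈ commutator G := comm_mem y x
  have hxc : x * c = c * x := commutatorElement_eq_one_iff_mul_comm.mp hx
  have hxt : ∀ t ∈ commutator G, x * t = t * x := by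
    intro t ht
    obtain ⟨k, s, hs, rfl⟩ := comm_dec' hxy t ht
    have h1 : Commute x (c ^ k) := (show Commute x c from hxc).zpow_right k
    have h2 : Commute x s := (hg3 s hs x).symm
    exact h1.mul_right h2
  set w := ⁅y, c⁆ with hwdef
  have hwg : w ∈ ⁅commutator G, (⊤ : Subgroup G)⁆ := g3_mem hc y
  have hwc : ∀ g, w * g = g * w := hg3 w hwg
  have hwp : w ^ p = 1 := H3 w (g3_le hwg)
  -- y ^ p commutes with x
  have hyp : x * y ^ p = y ^ p * x := by
    have e1 : c⁻¹ * y = w * y * c⁻¹ := by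
      have e2 : w * y * c⁻¹ = y * (w * c⁻¹) := by rw [hwc y, mul_assoc]
      have e3 : w * c⁻¹ = c⁻¹ * w := hwc c⁻¹
      rw [e2, e3, hwdef, commutatorElement_def]
      have e4 : c⁻¹ * (y * c * y⁻¹ * c⁻¹) = (y * c * y⁻¹ * c⁻¹) * c⁻¹ := by
        have := hab (y * c * y⁻¹ * c⁻¹) (comm_mem y c) c⁻¹ (inv_mem hc)
        exact this.symm
      have e5 : y * c * y⁻¹ * c⁻¹ = w := by rw [hwdef, commutatorElement_def]
      rw [e5]
      have e6 : y * (c⁻¹ * w) = w * (y * c⁻¹) := by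
        rw [← hwc c⁻¹, ← mul_assoc, ← hwc y, mul_assoc]
      rw [e6, hwdef, commutatorElement_def]
      have e7 : y * c * y⁻¹ * c⁻¹ * (y * c⁻¹) = (y * c * y⁻¹) * (c⁻¹ * (y * c⁻¹ * y⁻¹)) * y := by
        group
      have e8 : c⁻¹ * (y * c⁻¹ * y⁻¹) = (y * c⁻¹ * y⁻¹) * c⁻¹ :=
        hab _ (inv_mem hc) _ (Subgroup.Normal.conj_mem inferInstance _ (inv_mem hc) y)
      rw [e7, e8]
      group
    have e2 := pow_form c⁻¹ y w hwc e1 p
    have e3 : w ^ p.choose 2 = 1 := by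
      have hd : p ∣ p.choose 2 :=
        hp.out.dvd_choose_self (by norm_num) (lt_of_le_of_ne hp.out.two_le (Ne.symm hp2))
      obtain ⟨m, hm⟩ := hd
      rw [hm, pow_mul, hwp, one_pow]
    have e4 : (c⁻¹) ^ p = 1 := by rw [inv_pow, H3 c hc, inv_one]
    rw [e3, e4, mul_one, one_mul] at e2
    have e5 : x * y * x⁻¹ = c⁻¹ * y := by rw [hcdef, commutatorElement_def]; group
    have e6 : x * y ^ p * x⁻¹ = y ^ p := by rw [← conj_pow, e5, e2]
    rw [← mul_inv_eq_iff_eq_mul]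
    exact e6
  -- w = 1
  have hw1 : w = 1 := by
    obtain ⟨g, hg⟩ := h.a12 hG hxy w (g3_le hwg)
    obtain ⟨t, ht, i, j, rfl⟩ := nf2 hxy g
    have e1 : ⁅t * y ^ i * x ^ j, x⁆ = t * ⁅y ^ i, x⁆ * t⁻¹ * ⁅t, x⁆ := by
      simp only [commutatorElement_def]; group
    have e2 : ⁅t, x⁆ = 1 := commutatorElement_eq_one_iff_mul_comm.mpr (hxt t ht).symm
    rw [e1, e2, mul_one, hab t ht _ (comm_mem _ _), mul_inv_cancel_right] at hg
    by_cases hi : (p : ℤ) ∣ i
    · obtain ⟨l, rfl⟩ := hi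
      have e3 : Commute (y ^ ((p : ℤ) * l)) x := by
        rw [zpow_mul, zpow_natCast]
        exact (show Commute (y ^ p) x from hyp.symm).zpow_left l
      rw [← hg]
      exact commutatorElement_eq_one_iff_mul_comm.mpr e3
    · let π := QuotientGroup.mk' (Subgroup.center G)
      have hπ1 : ∀ g : G, π g = 1 ↔ g ∈ Subgroup.center G := fun g => QuotientGroup.eq_one_iff g
      have hπs : Function.Surjective π := QuotientGroup.mk'_surjective _
      have hQ : ∀ a b c : G ⧸ Subgroup.center G, ⁅⁅a, b⁆, c⁆ = 1 := by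
        intro a b c
        obtain ⟨a, rfl⟩ := hπs a
        obtain ⟨b, rfl⟩ := hπs b
        obtain ⟨c, rfl⟩ := hπs c
        rw [← map_commutatorElement, ← map_commutatorElement, hπ1, ← commutatorElement_inv]
        refine inv_mem ?_
        rw [Subgroup.mem_center_iff]
        exact fun k => (H1 _ (comm_mem a b) c k).symm
      have e3 : π w = (π c) ^ i := by
        rw [← hg, map_commutatorElement, map_zpow, map_commutatorElement]
        have := congrArg Subtype.val (pr_zpow hQ (π y) (π x) i)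
        exact this
      have hci : c ^ i ∈ Subgroup.center G := by
        rw [← hπ1, map_zpow, ← e3, hπ1, Subgroup.mem_center_iff]
        exact fun k => (hwc k).symm
      have hcc : c ∈ Subgroup.center G := mem_of_zpow_mem hG _ c i hi hci
      exact commutatorElement_eq_one_iff_mul_comm.mpr (Subgroup.mem_center_iff.mp hcc y)
  have hcc : ∀ g : G, ⁅g, c⁆ = 1 := by
    intro g
    obtain ⟨t, ht, i, j, rfl⟩ := nf2 hxy g
    rw [comm_mul c (H1 c hc), comm_mul c (H1 c hc), comm_zpow c (H1 c hc), comm_zpow c (H1 c hc),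
      hx, ← hwdef, hw1, comm_one c (H1 c hc) t ht]
    simp
  intro c' hc' g
  obtain ⟨k, s, hs, rfl⟩ := comm_dec' hxy c' hc'
  rw [commutatorElement_eq_one_iff_mul_comm]
  have h1 : Commute g (c ^ k) :=
    (show Commute g c from commutatorElement_eq_one_iff_mul_comm.mp (hcc g)).zpow_right k
  have h2 : Commute g s := (hg3 s hs g).symm
  exact h1.mul_right h2

theorem commG_le_frattini (hG : IsPGroup p G) : commutator G ≤ frattini G := by
  obtain ⟨hF1, hF2⟩ := frattini_facts hG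
  rw [commutator_def, Subgroup.commutator_le]
  intro a _ b _
  exact hF1 a b

omit [Finite G] in
theorem g3_quot {N : Subgroup G} [N.Normal] {a : G ⧸ N}
    (ha : a ∈ ⁅commutator (G ⧸ N), (⊤ : Subgroup (G ⧸ N))⁆) :
    ∃ b ∈ ⁅commutator G, (⊤ : Subgroup G)⁆, (b : G ⧸ N) = a := by
  have h1 : (⁅commutator G, (⊤ : Subgroup G)⁆).map (QuotientGroup.mk' N)
      = ⁅commutator (G ⧸ N), (⊤ : Subgroup (G ⧸ N))⁆ := by
    rw [Subgroup.map_commutator, map_comm,
      Subgroup.map_top_of_surjective _ (QuotientGroup.mk'_surjective N)]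
  rw [← h1] at ha
  exact ha

/-- two generators, odd prime: cyclic derived subgroup -/
theorem nec_odd (hG : IsPGroup p G) (hp2 : p ≠ 2) (h : Star G 2) :
    ∃ c, commutator G = Subgroup.zpowers c := by
  obtain ⟨x, y, hxy⟩ := h.ex2
  by_cases hA : ⁅commutator G, (⊤ : Subgroup G)⁆ ≤ FF p G
  · exact ⟨⁅y, x⁆, cyc_of hG _ (comm_mem y x) ((comm_dec hxy).trans (sup_le_sup le_rfl hA))⟩
  · exfalso
    obtain ⟨N, hN, hFN, hNB, hAN, hN1, -, hN3⟩ := exists_N hG ⁅commutator G, (⊤ : Subgroup G)⁆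
      (FF p G) (commutator G) g3_le (FF_le p) hA
    haveI := hN
    have hst : Star (G ⧸ N) 2 := h.quot N (hNB.trans (commG_le_frattini hG))
    have hmk : ∀ g : G, (g : G ⧸ N) = 1 ↔ g ∈ N := fun g => QuotientGroup.eq_one_iff g
    have key := core2odd (hG.to_quotient N) hp2 hst (by
      intro c hc g k
      obtain ⟨c, hc', rfl⟩ := exists_comm_lift N c hc
      obtain ⟨g, rfl⟩ := QuotientGroup.mk_surjective g
      obtain ⟨k, rfl⟩ := QuotientGroup.mk_surjective k
      rw [← commutatorElement_eq_one_iff_mul_comm]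
      show ((⁅⁅g, c⁆, k⁆ : G) : G ⧸ N) = 1
      rw [hmk, ← commutatorElement_inv]
      exact inv_mem (hN1 _ (g3_mem hc' g) k)) (by
      intro c hc
      obtain ⟨c, hc', rfl⟩ := exists_comm_lift N c hc
      show ((c ^ p : G) : G ⧸ N) = 1
      rw [hmk]
      exact hFN (Subgroup.mem_sup_left (Subgroup.subset_closure ⟨c, hc', rfl⟩))) (by
      intro a ha ha1 b hb
      obtain ⟨a, ha', rfl⟩ := g3_quot ha
      obtain ⟨b, hb', rfl⟩ := g3_quot hb
      rw [Ne, hmk] at ha1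
      obtain ⟨k, hk⟩ := hN3 a ha' ha1 b hb'
      exact ⟨k, (hmk _).mpr hk⟩)
    apply hAN
    rw [g3_le_iff]
    intro c hc g
    rw [← hmk]
    exact key (c : G ⧸ N) (mk_comm N c hc) (g : G ⧸ N)

omit hp in
/-- in a 2-group with cyclic derived subgroup of order at most four, `γ₃` has order at most two -/
theorem g3_cyc (hG : IsPGroup 2 G) (c : G) (hc : commutator G = Subgroup.zpowers c)
    (h4 : c ^ 4 = 1) : ∀ s ∈ ⁅commutator G, (⊤ : Subgroup G)⁆, s = 1 ∨ s = c ^ 2 := by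
  haveI : Fact (Nat.Prime 2) := ⟨Nat.prime_two⟩
  haveI : Group.IsNilpotent G := hG.isNilpotent
  intro s hs
  have hs1 : s ∈ Subgroup.zpowers c := by rw [← hc]; exact g3_le hs
  obtain ⟨k, hk⟩ := hs1
  have hk' : c ^ k = s := hk
  rcases Int.even_or_odd k with ⟨l, hl⟩ | hodd
  · rcases Int.even_or_odd l with ⟨m, hm⟩ | ⟨m, hm⟩
    · left
      rw [← hk', hl, hm, show m + m + (m + m) = (4 : ℕ) * m by push_cast; ring, zpow_mul,
        zpow_natCast, h4, one_zpow]
    · right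
      rw [← hk', hl, hm, show (2 * m + 1) + (2 * m + 1) = (4 : ℕ) * m + (2 : ℕ) by
        push_cast; ring, zpow_add, zpow_mul, zpow_natCast, h4, one_zpow, one_mul, zpow_natCast]
  · left
    have h1 : c ∈ ⁅commutator G, (⊤ : Subgroup G)⁆ := by
      refine mem_of_zpow_mem hG _ c k ?_ (by rw [hk']; exact hs)
      intro h2
      exact (Int.not_even_iff_odd.mpr hodd) (by
        obtain ⟨m, hm⟩ := h2
        exact ⟨m, by rw [hm]; push_cast; ring⟩)
    have h2 : commutator G ≤ ⁅commutator G, (⊤ : Subgroup G)⁆ ⊔ ⊥ := by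
      rw [sup_bot_eq]
      conv_lhs => rw [hc]
      rw [Subgroup.zpowers_le]
      exact h1
    have h3 := nil_le _ _ h2
    exact (Subgroup.mem_bot).mp (h3 (g3_le hs))

omit hp in
theorem core2cyc (hG : IsPGroup 2 G) (h : Star G 2) (c0 : G)
    (hc0 : commutator G = Subgroup.zpowers c0) (h4 : c0 ^ 4 = 1) :
    ∀ c ∈ commutator G, ∀ g : G, ⁅g, c⁆ = 1 := by
  haveI : Fact (Nat.Prime 2) := ⟨Nat.prime_two⟩
  have hg3 := g3_cyc hG c0 hc0 h4
  have hab : ∀ s ∈ commutator G, ∀ t ∈ commutator G, s * t = t * s := by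
    intro s hs t ht
    rw [hc0] at hs ht
    obtain ⟨k, rfl⟩ := hs
    obtain ⟨l, rfl⟩ := ht
    exact (Commute.refl c0).zpow_zpow k l
  have hc0m : c0 ∈ commutator G := by rw [hc0]; exact Subgroup.mem_zpowers c0
  have h22 : c0 ^ 2 * c0 ^ 2 = 1 := by rw [← pow_add]; exact h4
  have hz : ∀ g : G, c0 ^ 2 * g = g * c0 ^ 2 := by
    intro g
    have e1 : g * c0 * g⁻¹ = ⁅g, c0⁆ * c0 := by simp only [commutatorElement_def]; group
    have e2 : g * c0 ^ 2 * g⁻¹ = c0 ^ 2 := by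
      rw [← conj_pow, e1]
      rcases hg3 _ (g3_mem hc0m g) with h1 | h1
      · rw [h1, one_mul]
      · rw [h1, ← pow_succ, ← pow_mul]
        calc c0 ^ (3 * 2) = c0 ^ 4 * c0 ^ 2 := by rw [← pow_add]
          _ = c0 ^ 2 := by rw [h4, one_mul]
    rw [mul_inv_eq_iff_eq_mul] at e2
    exact e2.symm
  have hcen : ∀ s ∈ ⁅commutator G, (⊤ : Subgroup G)⁆, ∀ k : G, s * k = k * s := by
    intro s hs k
    rcases hg3 s hs with rfl | rfl
    · rw [one_mul, mul_one]
    · exact hz k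
  have H1 : ∀ c ∈ commutator G, ∀ g k : G, ⁅g, c⁆ * k = k * ⁅g, c⁆ :=
    fun c hc g k => hcen _ (g3_mem hc g) k
  obtain ⟨x, y, hxy, hx⟩ := exists_pair h H1 (by
    intro a ha ha1 b hb
    rcases hg3 a ha with rfl | rfl
    · exact absurd rfl ha1
    · rcases hg3 b hb with rfl | rfl
      · exact ⟨0, by rw [zpow_zero, one_mul]⟩
      · exact ⟨1, by rw [zpow_one]; exact h22⟩)
  set c := ⁅y, x⁆ with hcdef
  have hcm : c ∈ commutator G := comm_mem y x
  have hxc : x * c = c * x := commutatorElement_eq_one_iff_mul_comm.mp hx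
  have hc : commutator G = Subgroup.zpowers c := by
    refine cyc_of hG c hcm ((comm_dec hxy).trans (sup_le_sup le_rfl ?_))
    intro s hs
    rcases hg3 s hs with rfl | rfl
    · exact one_mem _
    · exact Subgroup.mem_sup_left (Subgroup.subset_closure ⟨c0, hc0m, rfl⟩)
  have hc4 : c ^ 4 = 1 := by
    have h1 : c ∈ Subgroup.zpowers c0 := by rw [← hc0]; exact hcm
    obtain ⟨k, hk⟩ := h1
    have hk' : c0 ^ k = c := hk
    rw [← hk', ← zpow_natCast, ← zpow_mul, mul_comm, zpow_mul, zpow_natCast, h4, one_zpow]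
  have hxt : ∀ t ∈ commutator G, x * t = t * x := by
    intro t ht
    rw [hc] at ht
    obtain ⟨k, rfl⟩ := ht
    exact (show Commute x c from hxc).zpow_right k
  -- c commutes with y
  have hyc : ⁅y, c⁆ = 1 := by
    rcases g3_cyc hG c hc hc4 _ (g3_mem hcm y) with h1 | h1
    · exact h1
    · by_contra hne
      have hc2 : c ^ 2 ≠ 1 := by rw [← h1]; exact hne
      have hy2 : y ^ 2 * x = x * y ^ 2 := by
        have e1 : y * x * y⁻¹ = c * x := by rw [hcdef, commutatorElement_def]; group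
        have e2 : y * c * y⁻¹ = c ^ 2 * c := by rw [← h1, commutatorElement_def]; group
        have e3 : y ^ 2 * x * (y ^ 2)⁻¹ = x := by
          calc y ^ 2 * x * (y ^ 2)⁻¹ = y * (y * x * y⁻¹) * y⁻¹ := by
                rw [pow_two]; simp only [mul_inv_rev, mul_assoc]
            _ = (y * c * y⁻¹) * (y * x * y⁻¹) := by
                conv_lhs => rw [e1]
                simp only [mul_assoc, inv_mul_cancel_left]
            _ = c ^ 4 * x := by
                rw [e1, e2, show (4 : ℕ) = 2 + 1 + 1 from rfl, pow_add, pow_add, pow_one]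
                simp only [mul_assoc]
            _ = x := by rw [hc4, one_mul]
        rw [mul_inv_eq_iff_eq_mul] at e3
        exact e3
      obtain ⟨g, hg⟩ := h.a12 hG hxy (c ^ 2) (pow_mem hcm 2)
      obtain ⟨t, ht, i, j, rfl⟩ := nf2 hxy g
      have e1 : ⁅t * y ^ i * x ^ j, x⁆ = t * ⁅y ^ i, x⁆ * t⁻¹ * ⁅t, x⁆ := by
        simp only [commutatorElement_def]; group
      have e2 : ⁅t, x⁆ = 1 := commutatorElement_eq_one_iff_mul_comm.mpr (hxt t ht).symm
      rw [e1, e2, mul_one, hab t ht _ (comm_mem _ _), mul_inv_cancel_right] at hg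
      have heven : ∀ l : ℤ, ⁅y ^ (2 * l), x⁆ = 1 := by
        intro l
        rw [commutatorElement_eq_one_iff_mul_comm, zpow_mul]
        have h3 : Commute (y ^ (2 : ℤ)) x := by
          rw [show (2 : ℤ) = ((2 : ℕ) : ℤ) by rfl, zpow_natCast]; exact hy2
        exact h3.zpow_left l
      rcases Int.even_or_odd i with ⟨l, hl⟩ | ⟨l, hl⟩
      · apply hc2
        rw [← hg, hl, ← two_mul]
        exact heven l
      · have e3 : ⁅y ^ (2 * l + 1), x⁆ = c := by
          have e4 : ⁅y ^ (2 * l + 1), x⁆ = y * ⁅y ^ (2 * l), x⁆ * y⁻¹ * ⁅y, x⁆ := by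
            rw [add_comm, zpow_add, zpow_one]
            simp only [commutatorElement_def]; group
          rw [e4, heven l, mul_one, mul_inv_cancel, one_mul]
        rw [hl, e3] at hg
        have h5 : c = 1 := by
          have : c * 1 = c * c := by rw [mul_one, ← pow_two]; exact hg
          exact (mul_left_cancel this).symm
        apply hc2
        rw [h5, one_pow]
  have hcc : ∀ g : G, ⁅g, c⁆ = 1 := by
    intro g
    obtain ⟨t, ht, i, j, rfl⟩ := nf2 hxy g
    rw [comm_mul c (H1 c hcm), comm_mul c (H1 c hcm), comm_zpow c (H1 c hcm),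
      comm_zpow c (H1 c hcm), hx, hyc, comm_one c (H1 c hcm) t ht]
    simp
  intro c' hc' g
  rw [hc] at hc'
  obtain ⟨k, rfl⟩ := hc'
  rw [commutatorElement_eq_one_iff_mul_comm]
  exact (show Commute g c from commutatorElement_eq_one_iff_mul_comm.mp (hcc g)).zpow_right k

omit hp in
/-- two generators, `p = 2`, cyclic derived subgroup: `γ₃` consists of fourth powers -/
theorem nec_cyc2 (hG : IsPGroup 2 G) (h : Star G 2) (c0 : G)
    (hc0 : commutator G = Subgroup.zpowers c0) :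
    ∀ z ∈ commutator G, ∀ g : G, ∃ w ∈ commutator G, ⁅z, g⁆ = w ^ 4 := by
  haveI : Fact (Nat.Prime 2) := ⟨Nat.prime_two⟩
  have hc0m : c0 ∈ commutator G := by rw [hc0]; exact Subgroup.mem_zpowers c0
  let N := Subgroup.closure {t : G | ∃ c ∈ commutator G, t = c ^ 4}
  haveI hN : N.Normal := closure_pow_normal 4
  have hNc : N ≤ commutator G := by
    rw [Subgroup.closure_le]
    rintro _ ⟨c, hc, rfl⟩
    exact pow_mem hc 4
  have hNz : N ≤ Subgroup.zpowers (c0 ^ 4) := by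
    rw [Subgroup.closure_le]
    rintro _ ⟨c, hc, rfl⟩
    rw [hc0] at hc
    obtain ⟨k, rfl⟩ := hc
    refine ⟨k, ?_⟩
    show (c0 ^ 4) ^ k = (c0 ^ k) ^ 4
    rw [← zpow_natCast, ← zpow_natCast, ← zpow_mul, ← zpow_mul, mul_comm]
  have hmk : ∀ g : G, (g : G ⧸ N) = 1 ↔ g ∈ N := fun g => QuotientGroup.eq_one_iff g
  have hst : Star (G ⧸ N) 2 := h.quot N (hNc.trans (commG_le_frattini hG))
  have key := core2cyc (hG.to_quotient N) hst (c0 : G ⧸ N) (by
    rw [← map_comm, hc0, MonoidHom.map_zpowers]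
    rfl) (by
    show ((c0 ^ 4 : G) : G ⧸ N) = 1
    rw [hmk]
    exact Subgroup.subset_closure ⟨c0, hc0m, rfl⟩)
  intro z hz g
  have h1 : ⁅g, z⁆ ∈ N := by
    rw [← hmk]
    exact key (z : G ⧸ N) (mk_comm N z hz) (g : G ⧸ N)
  obtain ⟨k, hk⟩ := hNz h1
  have hk' : (c0 ^ 4) ^ k = ⁅g, z⁆ := hk
  refine ⟨c0 ^ (-k), zpow_mem hc0m _, ?_⟩
  rw [← commutatorElement_inv, ← hk', ← zpow_neg, ← zpow_natCast, ← zpow_natCast, ← zpow_mul,
    ← zpow_mul, mul_comm]

end Pool.Agent.K7.H88.AC
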