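import Mathlib
import Pool.Agent.K7.H88.AC.NecCyc

/-!
Two-generator 2-groups with non-cyclic derived subgroup: necessity.
-/

set_option autoImplicit false

open scoped commutatorElement

namespace Pool.Agent.K7.H88.AC

open Pool.Agent.Helper832.AutC

/-- the situation to be excluded -/
structure Bad (G : Type) [Group G] (w : G) : Prop where
  w1 : w ≠ 1
  w2 : w * w = 1
  wc : ∀ g : G, w * g = g * w
  sq : ∀ c ∈ commutator G, c * c = 1 ∨ c * c = w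
  g4 : ∀ t ∈ ⁅commutator G, (⊤ : Subgroup G)⁆, ∀ g : G, ⁅g, t⁆ = 1 ∨ ⁅g, t⁆ = w
  nt : (∃ c ∈ commutator G, c * c = w) ∨
    (∃ t ∈ ⁅commutator G, (⊤ : Subgroup G)⁆, ∃ g : G, ⁅g, t⁆ = w)
  g3 : ∃ t ∈ ⁅commutator G, (⊤ : Subgroup G)⁆, t ≠ 1 ∧ t ≠ w

theorem D_gh {G : Type} [Group G] (g h t : G) : ⁅g * h, t⁆ = ⁅g, ⁅h, t⁆⁆ * ⁅h, t⁆ * ⁅g, t⁆ := by
  simp only [commutatorElement_def]; group

/-- `γ₃` is generated modulo `N` by the two commutators -/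
theorem g3_le_of {G : Type} [Group G] (N : Subgroup G) [N.Normal] {x y : G}
    (h : Subgroup.closure {x, y} = ⊤) (hx : ⁅x, ⁅y, x⁆⁆ ∈ N) (hy : ⁅y, ⁅y, x⁆⁆ ∈ N) :
    ⁅commutator G, (⊤ : Subgroup G)⁆ ≤ N := by
  let π := QuotientGroup.mk' N
  have hπ : ∀ g : G, π g = 1 ↔ g ∈ N := fun g => QuotientGroup.eq_one_iff g
  have hcomm : ∀ g : G, π g * π ⁅y, x⁆ = π ⁅y, x⁆ * π g := by
    have h1 : (⊤ : Subgroup G) ≤ (Subgroup.centralizer {π ⁅y, x⁆}).comap π := by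
      rw [← h, Subgroup.closure_le]
      rintro _ (rfl | rfl)
      · show π _ ∈ Subgroup.centralizer {π ⁅y, _⁆}
        rw [Subgroup.mem_centralizer_iff]
        rintro _ rfl
        rw [← commutatorElement_eq_one_iff_mul_comm, ← map_commutatorElement, hπ,
          ← commutatorElement_inv]
        exact inv_mem hx
      · show π _ ∈ Subgroup.centralizer {π ⁅_, x⁆}
        rw [Subgroup.mem_centralizer_iff]
        rintro _ rfl
        rw [← commutatorElement_eq_one_iff_mul_comm, ← map_commutatorElement, hπ,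
          ← commutatorElement_inv]
        exact inv_mem hy
    intro g
    have h2 : π g ∈ Subgroup.centralizer {π ⁅y, x⁆} := h1 (Subgroup.mem_top g)
    exact (Subgroup.mem_centralizer_iff.mp h2 _ rfl).symm
  haveI : (Subgroup.zpowers ⁅y, x⁆ ⊔ N).Normal := by
    refine ⟨fun n hn g => ?_⟩
    obtain ⟨m, ⟨k, rfl⟩, s, hs, rfl⟩ := Subgroup.mem_sup_of_normal_right.mp hn
    have e1 : g * ((fun x_1 => ⁅y, x⁆ ^ x_1) k * s) * g⁻¹
        = ⁅y, x⁆ ^ k * ((⁅y, x⁆ ^ k)⁻¹ * (g * ⁅y, x⁆ ^ k * g⁻¹) * (g * s * g⁻¹)) := by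
      show g * (⁅y, x⁆ ^ k * s) * g⁻¹ = _
      group
    rw [e1]
    refine mul_mem (Subgroup.mem_sup_left (Subgroup.zpow_mem_zpowers _ k))
      (Subgroup.mem_sup_right (mul_mem ?_ (Subgroup.Normal.conj_mem inferInstance _ hs g)))
    rw [← hπ]
    have h2 : π g * (π ⁅y, x⁆) ^ k = (π ⁅y, x⁆) ^ k * π g :=
      (show Commute (π g) (π ⁅y, x⁆) from hcomm g).zpow_right k
    rw [map_mul, map_mul, map_mul, map_inv, map_inv, map_zpow, h2, mul_inv_cancel_right,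
      inv_mul_cancel]
  have h3 := comm_le2 (Subgroup.zpowers ⁅y, x⁆ ⊔ N) h
    (Subgroup.mem_sup_left (Subgroup.mem_zpowers _))
  rw [g3_le_iff]
  intro t ht g
  obtain ⟨m, ⟨k, rfl⟩, s, hs, rfl⟩ := Subgroup.mem_sup_of_normal_right.mp (h3 ht)
  rw [← hπ, map_commutatorElement, commutatorElement_eq_one_iff_mul_comm, map_mul,
    (hπ s).mpr hs, mul_one]
  show π g * π (⁅y, x⁆ ^ k) = π (⁅y, x⁆ ^ k) * π g
  rw [map_zpow]
  exact (show Commute (π g) (π ⁅y, x⁆) from hcomm g).zpow_right k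

section BadSec

variable {G : Type} [Group G] {w : G}

theorem Bad.g3c (B : Bad G w) : ∀ t ∈ ⁅commutator G, (⊤ : Subgroup G)⁆, ∀ s ∈ commutator G,
    s * t = t * s := by
  intro t ht s hs
  refine commutatorElement_eq_one_iff_mul_comm.mp (comm_one t ?_ s hs)
  intro g k
  rcases B.g4 t ht g with h1 | h1
  · rw [h1, one_mul, mul_one]
  · rw [h1]; exact B.wc k

theorem Bad.hab (B : Bad G w) (h : Star G 2) : ∀ s ∈ commutator G, ∀ t ∈ commutator G,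
    s * t = t * s := by
  obtain ⟨x, y, hxy⟩ := h.ex2
  intro s hs t ht
  obtain ⟨k, s', hs', rfl⟩ := comm_dec' hxy s hs
  obtain ⟨l, t', ht', rfl⟩ := comm_dec' hxy t ht
  have c1 : ⁅y, x⁆ ∈ commutator G := comm_mem y x
  have h1 : Commute (⁅y, x⁆ ^ k) (⁅y, x⁆ ^ l) := (Commute.refl _).zpow_zpow k l
  have h2 : Commute (⁅y, x⁆ ^ k) t' := B.g3c t' ht' _ (zpow_mem c1 k)
  have h3 : Commute s' (⁅y, x⁆ ^ l) := (B.g3c s' hs' _ (zpow_mem c1 l)).symm
  have h4 : Commute s' t' := B.g3c t' ht' _ (g3_le hs')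
  exact (h1.mul_right h2).mul_left (h3.mul_right h4)

theorem Bad.wK (B : Bad G w) (t : G) : t ∈ Subgroup.zpowers w ↔ t = 1 ∨ t = w := by
  constructor
  · rintro ⟨k, rfl⟩
    show w ^ k = 1 ∨ w ^ k = w
    have h2 : w ^ (2 : ℤ) = 1 := by
      rw [show (2 : ℤ) = ((2 : ℕ) : ℤ) by rfl, zpow_natCast, pow_two]; exact B.w2
    rcases Int.even_or_odd k with ⟨l, hl⟩ | ⟨l, hl⟩
    · left
      rw [hl, ← two_mul, zpow_mul, h2, one_zpow]
    · right
      rw [hl, zpow_add, zpow_mul, h2, one_zpow, one_mul, zpow_one]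
  · rintro (rfl | rfl)
    · exact one_mem _
    · exact Subgroup.mem_zpowers _

theorem Bad.Kn (B : Bad G w) : (Subgroup.zpowers w).Normal := by
  refine ⟨fun n hn g => ?_⟩
  rcases (B.wK n).mp hn with rfl | rfl
  · rw [mul_one, mul_inv_cancel]; exact one_mem _
  · rw [← B.wc g, mul_inv_cancel_right]; exact hn

theorem Bad.Kcen (B : Bad G w) {t : G} (ht : t ∈ Subgroup.zpowers w) (g : G) :
    ⁅g, t⁆ = 1 := by
  rw [commutatorElement_eq_one_iff_mul_comm]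
  rcases (B.wK t).mp ht with rfl | rfl
  · rw [one_mul, mul_one]
  · exact (B.wc g).symm

theorem Bad.Ksq (B : Bad G w) {t : G} (ht : t ∈ Subgroup.zpowers w) : t * t = 1 := by
  rcases (B.wK t).mp ht with rfl | rfl
  · rw [one_mul]
  · exact B.w2

theorem Bad.g4K (B : Bad G w) {t : G} (ht : t ∈ ⁅commutator G, (⊤ : Subgroup G)⁆) (g : G) :
    ⁅g, t⁆ ∈ Subgroup.zpowers w := (B.wK _).mpr (B.g4 t ht g)

theorem Bad.sqK (B : Bad G w) {c : G} (hc : c ∈ commutator G) : c * c ∈ Subgroup.zpowers w :=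
  (B.wK _).mpr (B.sq c hc)

theorem Bad.Dm (B : Bad G w) (h : Star G 2) (g : G) {s t : G} (hs : s ∈ commutator G) :
    ⁅g, s * t⁆ = ⁅g, s⁆ * ⁅g, t⁆ := by
  have e1 : ⁅g, s * t⁆ = ⁅g, s⁆ * (s * ⁅g, t⁆ * s⁻¹) := by
    simp only [commutatorElement_def]; group
  rw [e1, B.hab h s hs _ (comm_mem g t), mul_inv_cancel_right]

theorem Bad.Di (B : Bad G w) (h : Star G 2) (g : G) {s : G} (hs : s ∈ commutator G) :
    ⁅g, s⁻¹⁆ = ⁅g, s⁆⁻¹ := by
  have h1 := B.Dm h g (t := s⁻¹) hs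
  rw [mul_inv_cancel, commutatorElement_one_right] at h1
  exact (inv_eq_of_mul_eq_one_right h1.symm).symm

theorem Bad.Dsq (B : Bad G w) (h : Star G 2) (g : G) {t : G} (ht : t ∈ commutator G) :
    ⁅g, t⁆ * ⁅g, t⁆ = 1 := by
  rw [← B.Dm h g ht]
  exact B.Kcen (B.sqK ht) g

theorem Bad.Dinv (B : Bad G w) (h : Star G 2) (g : G) {t : G} (ht : t ∈ commutator G) :
    ⁅g, t⁆⁻¹ = ⁅g, t⁆ := inv_eq_of_mul_eq_one_right (B.Dsq h g ht)

theorem Bad.Ds (B : Bad G w) (h : Star G 2) {s t : G} (hs : s ∈ commutator G)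
    (ht : t ∈ commutator G) : ⁅s, t⁆ = 1 :=
  commutatorElement_eq_one_iff_mul_comm.mpr (B.hab h s hs t ht)

theorem Bad.sym (B : Bad G w) (h : Star G 2) (g k : G) {t : G} (ht : t ∈ commutator G) :
    ⁅g, ⁅k, t⁆⁆ = ⁅k, ⁅g, t⁆⁆ := by
  have h1 : ⁅g * k, t⁆ = ⁅k * g, t⁆ := by
    have e1 : g * k = k * g * ⁅g⁻¹, k⁻¹⁆ := by simp only [commutatorElement_def]; group
    rw [e1, D_gh, B.Ds h (comm_mem _ _) ht, commutatorElement_one_right, one_mul, one_mul]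
  rw [D_gh, D_gh k g, mul_assoc, mul_assoc, B.hab h ⁅k, t⁆ (comm_mem _ _) ⁅g, t⁆ (comm_mem _ _)]
    at h1
  exact mul_right_cancel h1

/-- the elements of the derived subgroup central modulo `K` -/
def LL (w : G) (t : G) : Prop := t ∈ commutator G ∧ ∀ g : G, ⁅g, t⁆ ∈ Subgroup.zpowers w

theorem Bad.Lmul (B : Bad G w) (h : Star G 2) {s t : G} (hs : LL w s) (ht : LL w t) :
    LL w (s * t) :=
  ⟨mul_mem hs.1 ht.1, fun g => by rw [B.Dm h g hs.1]; exact mul_mem (hs.2 g) (ht.2 g)⟩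

theorem Bad.Linv (B : Bad G w) (h : Star G 2) {s : G} (hs : LL w s) : LL w s⁻¹ :=
  ⟨inv_mem hs.1, fun g => by rw [B.Di h g hs.1]; exact inv_mem (hs.2 g)⟩

theorem Bad.Lg3 (B : Bad G w) {s : G} (hs : s ∈ ⁅commutator G, (⊤ : Subgroup G)⁆) : LL w s :=
  ⟨g3_le hs, fun g => B.g4K hs g⟩

theorem Bad.wmem (B : Bad G w) : w ∈ commutator G := by
  rcases B.nt with ⟨c, hc, h1⟩ | ⟨t, ht, g, h1⟩
  · rw [← h1]; exact mul_mem hc hc
  · rw [← h1]; exact comm_mem g t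

theorem Bad.Lw (B : Bad G w) {s : G} (hs : s ∈ Subgroup.zpowers w) : LL w s := by
  refine ⟨?_, fun g => ?_⟩
  · have h1 : Subgroup.zpowers w ≤ commutator G := by
      rw [Subgroup.zpowers_le]; exact B.wmem
    exact h1 hs
  · rw [B.Kcen hs g]; exact one_mem _

/-- one of `⁅x, c⁆`, `⁅y, c⁆` is not in `K` -/
theorem Bad.notboth (B : Bad G w) {x y : G} (hxy : Subgroup.closure {x, y} = ⊤)
    (ha : ⁅x, ⁅y, x⁆⁆ ∈ Subgroup.zpowers w) (hb : ⁅y, ⁅y, x⁆⁆ ∈ Subgroup.zpowers w) : False := by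
  haveI := B.Kn
  obtain ⟨t, ht, h1, h2⟩ := B.g3
  rcases (B.wK t).mp (g3_le_of _ hxy ha hb ht) with h3 | h3
  · exact h1 h3
  · exact h2 h3

theorem Bad.cnotL (B : Bad G w) {x y : G} (hxy : Subgroup.closure {x, y} = ⊤)
    (hc : LL w ⁅y, x⁆) : False := B.notboth hxy (hc.2 x) (hc.2 y)

/-- the derived subgroup is `L ∪ c L` -/
theorem Bad.Ldec (B : Bad G w) (h : Star G 2) {x y : G} (hxy : Subgroup.closure {x, y} = ⊤)
    {t : G} (ht : t ∈ commutator G) : LL w t ∨ ∃ s, LL w s ∧ t = ⁅y, x⁆ * s := by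
  obtain ⟨k, s, hs, rfl⟩ := comm_dec' hxy t ht
  have c1 : ⁅y, x⁆ ∈ commutator G := comm_mem y x
  have h2 : ∀ l : ℤ, LL w ((⁅y, x⁆ * ⁅y, x⁆) ^ l) := fun l => B.Lw (zpow_mem (B.sqK c1) l)
  have e2 : ∀ l : ℤ, (⁅y, x⁆ * ⁅y, x⁆) ^ l = ⁅y, x⁆ ^ (2 * l) := by
    intro l
    rw [zpow_mul]
    congr 1
    rw [show (2 : ℤ) = ((2 : ℕ) : ℤ) by rfl, zpow_natCast, pow_two]
  rcases Int.even_or_odd k with ⟨l, hl⟩ | ⟨l, hl⟩
  · left
    rw [hl, ← two_mul, ← e2]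
    exact B.Lmul h (h2 l) (B.Lg3 hs)
  · right
    refine ⟨(⁅y, x⁆ * ⁅y, x⁆) ^ l * s, B.Lmul h (h2 l) (B.Lg3 hs), ?_⟩
    rw [hl, e2, ← mul_assoc]
    congr 1
    rw [add_comm, zpow_add, zpow_one]

/-- the element `⁅y ^ 2, x⁆` -/
theorem comm_sq (x y : G) : ⁅y * y, x⁆ = ⁅y, ⁅y, x⁆⁆ * (⁅y, x⁆ * ⁅y, x⁆) := by
  simp only [commutatorElement_def]; group

theorem comm_left (g k x : G) : ⁅g * k, x⁆ = g * ⁅k, x⁆ * g⁻¹ * ⁅g, x⁆ := by
  simp only [commutatorElement_def]; group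

/-- first consequence of the maximality of the class of `x` -/
theorem Bad.lemA [Finite G] (hG : IsPGroup 2 G) (B : Bad G w) (h : Star G 2) {x y : G}
    (hxy : Subgroup.closure {x, y} = ⊤) :
    ∃ t ∈ commutator G, ⁅x, t⁆ = w ∨ w * ⁅x, t⁆ = ⁅y, ⁅y, x⁆⁆ * (⁅y, x⁆ * ⁅y, x⁆) := by
  haveI : Fact (Nat.Prime 2) := ⟨Nat.prime_two⟩
  obtain ⟨g, hg⟩ := h.a12 hG hxy w B.wmem
  obtain ⟨t, ht, i, j, rfl⟩ := nf2 hxy g
  have hc : ⁅y, x⁆ ∈ commutator G := comm_mem y x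
  -- reduce to the power of y
  have e1 : w * ⁅x, t⁆ = ⁅y ^ i, x⁆ := by
    have e2 : ⁅t * y ^ i * x ^ j, x⁆ = t * ⁅y ^ i, x⁆ * t⁻¹ * ⁅x, t⁆⁻¹ := by
      simp only [commutatorElement_def]; group
    rw [e2, B.hab h t ht _ (comm_mem _ _), mul_inv_cancel_right] at hg
    rw [← hg, inv_mul_cancel_right]
  set e := ⁅y * y, x⁆ with hedef
  have heq : e = ⁅y, ⁅y, x⁆⁆ * (⁅y, x⁆ * ⁅y, x⁆) := comm_sq x y
  have heL : LL w e := by
    rw [heq]
    exact B.Lmul h (B.Lg3 (g3_mem hc y)) (B.Lw (B.sqK hc))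
  have hee : e * e = 1 := by
    rw [heq]
    have c1 : ⁅y, ⁅y, x⁆⁆ * ⁅y, ⁅y, x⁆⁆ = 1 := B.Dsq h y hc
    have c2 := B.Ksq (B.sqK hc)
    have c3 : ⁅y, x⁆ * ⁅y, x⁆ * ⁅y, ⁅y, x⁆⁆ = ⁅y, ⁅y, x⁆⁆ * (⁅y, x⁆ * ⁅y, x⁆) :=
      B.hab h _ (mul_mem hc hc) _ (comm_mem _ _)
    calc ⁅y, ⁅y, x⁆⁆ * (⁅y, x⁆ * ⁅y, x⁆) * (⁅y, ⁅y, x⁆⁆ * (⁅y, x⁆ * ⁅y, x⁆))
        = ⁅y, ⁅y, x⁆⁆ * ((⁅y, x⁆ * ⁅y, x⁆) * ⁅y, ⁅y, x⁆⁆) * (⁅y, x⁆ * ⁅y, x⁆) := by
          simp only [mul_assoc]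
      _ = (⁅y, ⁅y, x⁆⁆ * ⁅y, ⁅y, x⁆⁆) * ((⁅y, x⁆ * ⁅y, x⁆) * (⁅y, x⁆ * ⁅y, x⁆)) := by
          rw [c3]; simp only [mul_assoc]
      _ = 1 := by rw [c1, c2, one_mul]
  have hye : ⁅y * y, e⁆ = 1 := by
    rw [D_gh, B.Kcen (heL.2 y) y, one_mul]
    exact B.Dsq h y heL.1
  have hy4 : ⁅(y * y) * (y * y), x⁆ = 1 := by
    rw [comm_left, ← hedef]
    have e3 : y * y * e * (y * y)⁻¹ = e := by
      have e4 := commutatorElement_eq_one_iff_mul_comm.mp hye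
      rw [e4, mul_inv_cancel_right]
    rw [e3, hee]
  have hy4' : ∀ q : ℤ, ⁅((y * y) * (y * y)) ^ q, x⁆ = 1 := by
    intro q
    rw [commutatorElement_eq_one_iff_mul_comm] at hy4 ⊢
    exact (show Commute _ x from hy4).zpow_left q
  have hyr : ∀ (r : G) (q : ℤ), ⁅r * ((y * y) * (y * y)) ^ q, x⁆ = ⁅r, x⁆ := by
    intro r q
    rw [comm_left, hy4', mul_one, mul_inv_cancel, one_mul]
  have hpow : ∀ q : ℤ, ((y * y) * (y * y)) ^ q = y ^ (4 * q) := by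
    intro q
    rw [zpow_mul]
    congr 1
    rw [show (4 : ℤ) = ((4 : ℕ) : ℤ) by rfl, zpow_natCast]
    simp only [pow_succ, pow_zero, one_mul, mul_assoc]
  have hLw : LL w (w * ⁅x, t⁆) :=
    B.Lmul h (B.Lw (Subgroup.mem_zpowers w)) (B.Lg3 (g3_mem ht x))
  have hi : i = 4 * (i / 4) + i % 4 := (Int.mul_ediv_add_emod i 4).symm
  have hr : i % 4 = 0 ∨ i % 4 = 1 ∨ i % 4 = 2 ∨ i % 4 = 3 := by omega
  have e5 : y ^ i = y ^ (i % 4) * ((y * y) * (y * y)) ^ (i / 4) := by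
    rw [hpow, ← zpow_add]
    congr 1
    omega
  rw [e5, hyr] at e1
  refine ⟨t, ht, ?_⟩
  rcases hr with hr | hr | hr | hr
  · left
    rw [hr, zpow_zero, commutatorElement_one_left] at e1
    have : ⁅x, t⁆ = w⁻¹ := by
      rw [← one_mul ⁅x, t⁆, ← inv_mul_cancel w, mul_assoc, e1, mul_one]
    rw [this, inv_eq_of_mul_eq_one_right B.w2]
  · exfalso
    rw [hr, zpow_one] at e1
    rw [e1] at hLw
    exact B.cnotL hxy hLw
  · right
    rw [hr] at e1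
    rw [e1, ← heq, hedef]
    congr 1
    rw [show (2 : ℤ) = ((2 : ℕ) : ℤ) by rfl, zpow_natCast, pow_two]
  · exfalso
    rw [hr] at e1
    have e6 : y ^ (3 : ℤ) = y * (y * y) := by
      rw [show (3 : ℤ) = ((3 : ℕ) : ℤ) by rfl, zpow_natCast]
      simp only [pow_succ, pow_zero, one_mul, mul_assoc]
    rw [e6, comm_left, ← hedef] at e1
    have e7 : y * e * y⁻¹ = ⁅y, e⁆ * e := by simp only [commutatorElement_def]; group
    rw [e7] at e1
    have hL2 : LL w (⁅y, e⁆ * e) := B.Lmul h (B.Lw (heL.2 y)) heL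
    have e8 : ⁅y, x⁆ = (⁅y, e⁆ * e)⁻¹ * (w * ⁅x, t⁆) := by rw [e1, inv_mul_cancel_left]
    apply B.cnotL hxy
    rw [e8]
    exact B.Lmul h (B.Linv h hL2) hLw

/-- `⁅x, t⁆ ∈ K` for all `t` when `⁅x, c⁆ ∈ K` -/
theorem Bad.xt (B : Bad G w) (h : Star G 2) {x y : G} (hxy : Subgroup.closure {x, y} = ⊤)
    (ha : ⁅x, ⁅y, x⁆⁆ ∈ Subgroup.zpowers w) {t : G} (ht : t ∈ commutator G) :
    ⁅x, t⁆ ∈ Subgroup.zpowers w := by
  rcases B.Ldec h hxy ht with h1 | ⟨s, hs, rfl⟩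
  · exact h1.2 x
  · rw [B.Dm h x (comm_mem y x)]
    exact mul_mem ha (hs.2 x)

/-- `⁅x, t⁆ = 1` for all `t ∈ γ₃` when it holds for the two generators -/
theorem Bad.x3 (B : Bad G w) (h : Star G 2) {x y : G} (hxy : Subgroup.closure {x, y} = ⊤) (u : G)
    (ha : ⁅u, ⁅x, ⁅y, x⁆⁆⁆ = 1) (hb : ⁅u, ⁅y, ⁅y, x⁆⁆⁆ = 1) :
    ∀ t ∈ ⁅commutator G, (⊤ : Subgroup G)⁆, ⁅u, t⁆ = 1 := by
  let N : Subgroup G :=
    { carrier := {t | LL w t ∧ ⁅u, t⁆ = 1}
      mul_mem' := by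
        rintro s t ⟨hs, hs1⟩ ⟨ht, ht1⟩
        exact ⟨B.Lmul h hs ht, by rw [B.Dm h u hs.1, hs1, ht1, one_mul]⟩
      one_mem' := ⟨B.Lw (one_mem _), commutatorElement_one_right _⟩
      inv_mem' := by
        rintro s ⟨hs, hs1⟩
        exact ⟨B.Linv h hs, by rw [B.Di h u hs.1, hs1, inv_one]⟩ }
  haveI : N.Normal := by
    refine ⟨fun n hn g => ?_⟩
    have hn' : LL w n ∧ ⁅u, n⁆ = 1 := hn
    have e1 : g * n * g⁻¹ = ⁅g, n⁆ * n := by simp only [commutatorElement_def]; group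
    rw [e1]
    exact N.mul_mem ⟨B.Lw (hn'.1.2 g), B.Kcen (hn'.1.2 g) u⟩ hn
  have hc : ⁅y, x⁆ ∈ commutator G := comm_mem y x
  intro t ht
  have h1 : t ∈ N := g3_le_of N hxy ⟨B.Lg3 (g3_mem hc x), ha⟩ ⟨B.Lg3 (g3_mem hc y), hb⟩ ht
  exact h1.2

theorem Bad.II1 [Finite G] (hG : IsPGroup 2 G) (B : Bad G w) (h : Star G 2) {x y : G}
    (hxy : Subgroup.closure {x, y} = ⊤) (ha : ⁅x, ⁅y, x⁆⁆ ∈ Subgroup.zpowers w) :
    ⁅x, ⁅y, x⁆⁆ = w := by
  have hc : ⁅y, x⁆ ∈ commutator G := comm_mem y x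
  rcases (B.wK _).mp ha with h1 | h1
  · exfalso
    have hb : ⁅x, ⁅y, ⁅y, x⁆⁆⁆ = 1 := by
      rw [B.sym h x y hc, h1, commutatorElement_one_right]
    have h3 := B.x3 h hxy x (by rw [h1, commutatorElement_one_right]) hb
    have h4 : ∀ t ∈ commutator G, ⁅x, t⁆ = 1 := by
      intro t ht
      obtain ⟨k, s, hs, rfl⟩ := comm_dec' hxy t ht
      rw [commutatorElement_eq_one_iff_mul_comm]
      have c1 : Commute x (⁅y, x⁆ ^ k) :=
        (show Commute x ⁅y, x⁆ from commutatorElement_eq_one_iff_mul_comm.mp h1).zpow_right k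
      have c2 : Commute x s := commutatorElement_eq_one_iff_mul_comm.mp (h3 s hs)
      exact c1.mul_right c2
    obtain ⟨t, ht, h5 | h5⟩ := B.lemA hG h hxy
    · exact B.w1 (by rw [← h5, h4 t ht])
    · rw [h4 t ht, mul_one] at h5
      apply B.notboth hxy ha
      have e1 : ⁅y, ⁅y, x⁆⁆ = w * (⁅y, x⁆ * ⁅y, x⁆)⁻¹ := by rw [h5, mul_inv_cancel_right]
      rw [e1]
      exact mul_mem (Subgroup.mem_zpowers w) (inv_mem (B.sqK hc))
  · exact h1

theorem Bad.II [Finite G] (hG : IsPGroup 2 G) (B : Bad G w) (h : Star G 2) {x y : G}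
    (hxy : Subgroup.closure {x, y} = ⊤) (ha : ⁅x, ⁅y, x⁆⁆ ∈ Subgroup.zpowers w) : False := by
  have hc : ⁅y, x⁆ ∈ commutator G := comm_mem y x
  have haw := B.II1 hG h hxy ha
  have hb : ⁅y, ⁅y, x⁆⁆ ∉ Subgroup.zpowers w := fun hb => B.notboth hxy ha hb
  have hbg : ⁅y, ⁅y, x⁆⁆ ∈ ⁅commutator G, (⊤ : Subgroup G)⁆ := g3_mem hc y
  -- ⁅y, b⁆ = 1
  have hyb : ⁅y, ⁅y, ⁅y, x⁆⁆⁆ = 1 := by
    have h1 : Subgroup.closure {x * (y * y), y} = ⊤ := by
      have := gen_tw' hxy 2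
      rwa [show (2 : ℤ) = ((2 : ℕ) : ℤ) by rfl, zpow_natCast, pow_two] at this
    have e1 : ⁅y, x * (y * y)⁆ = ⁅y, x⁆ := by simp only [commutatorElement_def]; group
    have e2 : ⁅y * y, ⁅y, x⁆⁆ = ⁅y, ⁅y, ⁅y, x⁆⁆⁆ := by
      rw [D_gh, mul_assoc, B.Dsq h y hc, mul_one]
    have hK : ⁅y, ⁅y, ⁅y, x⁆⁆⁆ ∈ Subgroup.zpowers w := B.g4K hbg y
    have e3 : ⁅x * (y * y), ⁅y, x⁆⁆ = ⁅y, ⁅y, ⁅y, x⁆⁆⁆ * w := by
      rw [D_gh, e2, B.Kcen hK x, one_mul, haw]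
    have h2 := B.II1 hG h h1 (by
      rw [e1, e3]
      exact mul_mem hK (Subgroup.mem_zpowers w))
    rw [e1, e3] at h2
    exact mul_eq_right.mp h2
  have hxb : ⁅x, ⁅y, ⁅y, x⁆⁆⁆ = 1 := by
    rw [B.sym h x y hc, haw, B.Kcen (Subgroup.mem_zpowers w)]
  have ha1 : ∀ u : G, ⁅u, ⁅x, ⁅y, x⁆⁆⁆ = 1 := fun u => by
    rw [haw, B.Kcen (Subgroup.mem_zpowers w)]
  have hb1 : ∀ u : G, ⁅u, ⁅y, ⁅y, x⁆⁆⁆ = 1 := by
    intro u
    have h1 : (⊤ : Subgroup G) ≤ Subgroup.centralizer {⁅y, ⁅y, x⁆⁆} := by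
      rw [← hxy, Subgroup.closure_le]
      rintro v hv
      rw [SetLike.mem_coe, Subgroup.mem_centralizer_iff]
      rintro _ rfl
      rcases hv with rfl | rfl
      · exact (commutatorElement_eq_one_iff_mul_comm.mp hxb).symm
      · exact (commutatorElement_eq_one_iff_mul_comm.mp hyb).symm
    rw [commutatorElement_eq_one_iff_mul_comm]
    exact (Subgroup.mem_centralizer_iff.mp (h1 (Subgroup.mem_top u)) _ rfl).symm
  have h3 : ∀ u : G, ∀ t ∈ ⁅commutator G, (⊤ : Subgroup G)⁆, ⁅u, t⁆ = 1 :=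
    fun u => B.x3 h hxy u (ha1 u) (hb1 u)
  -- squares of elements of γ₃ vanish
  have hs2 : ∀ s ∈ ⁅commutator G, (⊤ : Subgroup G)⁆, s * s = 1 := by
    let N : Subgroup G :=
      { carrier := {t | t ∈ commutator G ∧ t * t = 1}
        mul_mem' := by
          rintro s t ⟨hs, hs1⟩ ⟨ht, ht1⟩
          refine ⟨mul_mem hs ht, ?_⟩
          have e1 : s * t * (s * t) = s * (t * s) * t := by simp only [mul_assoc]
          have e2 : s * (t * s) * t = (s * s) * (t * t) := by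
            rw [B.hab h t ht s hs]; simp only [mul_assoc]
          rw [e1, e2, hs1, ht1, one_mul]
        one_mem' := ⟨one_mem _, one_mul 1⟩
        inv_mem' := by
          rintro s ⟨hs, hs1⟩
          exact ⟨inv_mem hs, by rw [← mul_inv_rev, hs1, inv_one]⟩ }
    have h4 : ⁅commutator G, (⊤ : Subgroup G)⁆ ≤ N := by
      rw [g3_le_iff]
      intro c hc g
      exact ⟨comm_mem g c, B.Dsq h g hc⟩
    intro s hs
    exact (h4 hs).2
  -- c * c = w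
  have hcw : ⁅y, x⁆ * ⁅y, x⁆ = w := by
    rcases B.nt with ⟨t, ht, h1⟩ | ⟨t, ht, g, h1⟩
    · rcases B.sq _ hc with h2 | h2
      · exfalso
        obtain ⟨k, s, hs, rfl⟩ := comm_dec' hxy t ht
        have c2 : Commute (⁅y, x⁆ ^ k) s := B.g3c s hs _ (zpow_mem hc k)
        have e1 : ⁅y, x⁆ ^ k * s * (⁅y, x⁆ ^ k * s) = (⁅y, x⁆ * ⁅y, x⁆) ^ k * (s * s) := by
          calc ⁅y, x⁆ ^ k * s * (⁅y, x⁆ ^ k * s) = ⁅y, x⁆ ^ k * (s * ⁅y, x⁆ ^ k) * s := by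
                simp only [mul_assoc]
            _ = ⁅y, x⁆ ^ k * (⁅y, x⁆ ^ k * s) * s := by rw [← c2]
            _ = (⁅y, x⁆ ^ k * ⁅y, x⁆ ^ k) * (s * s) := by simp only [mul_assoc]
            _ = _ := by rw [← (Commute.refl ⁅y, x⁆).mul_zpow k]
        rw [e1, h2, hs2 s hs, one_zpow, one_mul] at h1
        exact B.w1 h1.symm
      · exact h2
    · exfalso
      apply B.w1
      rw [← h1, h3 g t ht]
  -- the class of y
  obtain ⟨t, ht, h5⟩ := B.lemA hG h (gen_swap hxy)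
  have e1 : ⁅x, y⁆ = ⁅y, x⁆⁻¹ := (commutatorElement_inv y x).symm
  have e2 : ⁅x, ⁅x, y⁆⁆ * (⁅x, y⁆ * ⁅x, y⁆) = 1 := by
    rw [e1, B.Di h x hc, haw, ← mul_inv_rev, hcw, ← mul_inv_rev, B.w2, inv_one]
  have h6 : ⁅y, t⁆ = w := by
    rcases h5 with h5 | h5
    · exact h5
    · rw [e2] at h5
      rw [← inv_eq_of_mul_eq_one_right h5, inv_eq_of_mul_eq_one_right B.w2]
  obtain ⟨k, s, hs, rfl⟩ := comm_dec' hxy t ht
  have e3 : ⁅y, ⁅y, x⁆ ^ k * s⁆ = ⁅y, ⁅y, x⁆ ^ k⁆ := by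
    rw [B.Dm h y (zpow_mem hc k), h3 y s hs, mul_one]
  rw [e3] at h6
  rcases Int.even_or_odd k with ⟨l, hl⟩ | ⟨l, hl⟩
  · rw [hl, ← two_mul] at h6
    have e4 : ⁅y, x⁆ ^ (2 * l) ∈ Subgroup.zpowers w := by
      rw [zpow_mul]
      refine zpow_mem ?_ l
      rw [show (2 : ℤ) = ((2 : ℕ) : ℤ) by rfl, zpow_natCast, pow_two]
      exact B.sqK hc
    rw [B.Kcen e4 y] at h6
    exact B.w1 h6.symm
  · have e4 : ⁅y, x⁆ ^ (2 * l) ∈ Subgroup.zpowers w := by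
      rw [zpow_mul]
      refine zpow_mem ?_ l
      rw [show (2 : ℤ) = ((2 : ℕ) : ℤ) by rfl, zpow_natCast, pow_two]
      exact B.sqK hc
    rw [hl, add_comm, zpow_add, zpow_one, B.Dm h y hc, B.Kcen e4 y, mul_one] at h6
    exact hb (by rw [h6]; exact Subgroup.mem_zpowers w)

theorem Bad.II2 [Finite G] (hG : IsPGroup 2 G) (B : Bad G w) (h : Star G 2) {x y : G}
    (hxy : Subgroup.closure {x, y} = ⊤) : ⁅y, ⁅y, x⁆⁆ ∉ Subgroup.zpowers w := by
  intro hb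
  have hc : ⁅y, x⁆ ∈ commutator G := comm_mem y x
  refine B.II hG h (gen_swap hxy) ?_
  rw [← commutatorElement_inv y x, B.Di h y hc]
  exact inv_mem hb

theorem Bad.II3 [Finite G] (hG : IsPGroup 2 G) (B : Bad G w) (h : Star G 2) {x y : G}
    (hxy : Subgroup.closure {x, y} = ⊤) :
    ⁅x, ⁅y, x⁆⁆ * ⁅y, ⁅y, x⁆⁆ ∉ Subgroup.zpowers w := by
  intro hab
  have hc : ⁅y, x⁆ ∈ commutator G := comm_mem y x
  have h1 : Subgroup.closure {x * y, y} = ⊤ := by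
    have := gen_tw' hxy 1
    rwa [zpow_one] at this
  refine B.II hG h h1 ?_
  have e1 : ⁅y, x * y⁆ = ⁅y, x⁆ := by simp only [commutatorElement_def]; group
  rw [e1, D_gh, mul_assoc, B.hab h _ (comm_mem y _) _ (comm_mem x _)]
  exact mul_mem (B.g4K (g3_mem hc y) x) hab

/-- second consequence of the maximality of the class of `x` -/
theorem Bad.lemB [Finite G] (hG : IsPGroup 2 G) (B : Bad G w) (h : Star G 2) {x y : G}
    (hxy : Subgroup.closure {x, y} = ⊤) :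
    ⁅x, ⁅x, ⁅y, x⁆⁆⁆ = w ∨ ⁅x, ⁅y, ⁅y, x⁆⁆⁆ = w := by
  have hc : ⁅y, x⁆ ∈ commutator G := comm_mem y x
  by_contra hcon
  push Not at hcon
  have ha1 : ⁅x, ⁅x, ⁅y, x⁆⁆⁆ = 1 := (B.g4 _ (g3_mem hc x) x).resolve_right hcon.1
  have hb1 : ⁅x, ⁅y, ⁅y, x⁆⁆⁆ = 1 := (B.g4 _ (g3_mem hc y) x).resolve_right hcon.2
  have h3 := B.x3 h hxy x ha1 hb1
  obtain ⟨t, ht, h5⟩ := B.lemA hG h hxy
  -- ⁅x, t⁆ is 1 or a
  have h6 : ⁅x, t⁆ = 1 ∨ ⁅x, t⁆ = ⁅x, ⁅y, x⁆⁆ := by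
    obtain ⟨k, s, hs, rfl⟩ := comm_dec' hxy t ht
    have e3 : ⁅x, ⁅y, x⁆ ^ k * s⁆ = ⁅x, ⁅y, x⁆ ^ k⁆ := by
      rw [B.Dm h x (zpow_mem hc k), h3 s hs, mul_one]
    rw [e3]
    have e4 : ∀ l : ℤ, ⁅y, x⁆ ^ (2 * l) ∈ Subgroup.zpowers w := by
      intro l
      rw [zpow_mul]
      refine zpow_mem ?_ l
      rw [show (2 : ℤ) = ((2 : ℕ) : ℤ) by rfl, zpow_natCast, pow_two]
      exact B.sqK hc
    rcases Int.even_or_odd k with ⟨l, hl⟩ | ⟨l, hl⟩
    · left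
      rw [hl, ← two_mul, B.Kcen (e4 l) x]
    · right
      rw [hl, add_comm, zpow_add, zpow_one, B.Dm h x hc, B.Kcen (e4 l) x, mul_one]
  have hcK : (⁅y, x⁆ * ⁅y, x⁆)⁻¹ ∈ Subgroup.zpowers w := inv_mem (B.sqK hc)
  have hwK : w ∈ Subgroup.zpowers w := Subgroup.mem_zpowers w
  rcases h5 with h5 | h5
  · rcases h6 with h6 | h6
    · exact B.w1 (by rw [← h5, h6])
    · exact B.II hG h hxy (by rw [← h6, h5]; exact hwK)
  · have e1 : ⁅y, ⁅y, x⁆⁆ = w * ⁅x, t⁆ * (⁅y, x⁆ * ⁅y, x⁆)⁻¹ := by rw [h5, mul_inv_cancel_right]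
    rcases h6 with h6 | h6
    · apply B.II2 hG h hxy
      rw [e1, h6, mul_one]
      exact mul_mem hwK hcK
    · apply B.II3 hG h hxy
      rw [e1, h6]
      have e2 : ⁅x, ⁅y, x⁆⁆ * (w * ⁅x, ⁅y, x⁆⁆ * (⁅y, x⁆ * ⁅y, x⁆)⁻¹)
          = (⁅x, ⁅y, x⁆⁆ * ⁅x, ⁅y, x⁆⁆) * w * (⁅y, x⁆ * ⁅y, x⁆)⁻¹ := by
        rw [B.wc]; simp only [mul_assoc]
      rw [e2, B.Dsq h x hc, one_mul]
      exact mul_mem hwK hcK

/-- even powers -/
theorem even_or (u v : G) (hv : ⁅u * u, v⁆ = 1) (i : ℤ) : ⁅u ^ i, v⁆ = 1 ∨ ⁅u ^ i, v⁆ = ⁅u, v⁆ := by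
  have h1 : ∀ l : ℤ, ⁅u ^ (2 * l), v⁆ = 1 := by
    intro l
    rw [commutatorElement_eq_one_iff_mul_comm] at hv ⊢
    rw [zpow_mul]
    have h3 : Commute (u ^ (2 : ℤ)) v := by
      rw [show (2 : ℤ) = ((2 : ℕ) : ℤ) by rfl, zpow_natCast, pow_two]; exact hv
    exact h3.zpow_left l
  rcases Int.even_or_odd i with ⟨l, hl⟩ | ⟨l, hl⟩
  · left
    rw [hl, ← two_mul, h1]
  · right
    rw [hl, add_comm, zpow_add, zpow_one, comm_left, h1, mul_one, mul_inv_cancel, one_mul]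

/-- the form is not alternating -/
theorem Bad.lemC [Finite G] (hG : IsPGroup 2 G) (B : Bad G w) (h : Star G 2) :
    ∃ x y : G, Subgroup.closure {x, y} = ⊤ ∧ ⁅x, ⁅x, ⁅y, x⁆⁆⁆ = w := by
  by_contra hcon
  push Not at hcon
  obtain ⟨x, y, hxy⟩ := h.ex2
  have hc : ⁅y, x⁆ ∈ commutator G := comm_mem y x
  have hxa : ⁅x, ⁅x, ⁅y, x⁆⁆⁆ = 1 := (B.g4 _ (g3_mem hc x) x).resolve_right (hcon x y hxy)
  have hxb : ⁅x, ⁅y, ⁅y, x⁆⁆⁆ = w := (B.lemB hG h hxy).resolve_left (hcon x y hxy)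
  have hya : ⁅y, ⁅x, ⁅y, x⁆⁆⁆ = w := by rw [B.sym h y x hc, hxb]
  have hyb : ⁅y, ⁅y, ⁅y, x⁆⁆⁆ = 1 := by
    refine (B.g4 _ (g3_mem hc y) y).resolve_right (fun h1 => hcon y x (gen_swap hxy) ?_)
    rw [← commutatorElement_inv y x, B.Di h y hc, B.Dinv h y hc]
    exact h1
  set c := ⁅y, x⁆ with hcdef
  set a := ⁅x, c⁆ with hadef
  set b := ⁅y, c⁆ with hbdef
  obtain ⟨α, hα, hαx, hαy⟩ := h.full2 hxy a 1 (comm_mem x c) (one_mem _)
  rw [one_mul] at hαy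
  have e1 : α c = w * c := by
    rw [hcdef, map_commutatorElement, hαx, hαy]
    have e2 : ⁅y, a * x⁆ = ⁅y, a⁆ * (a * ⁅y, x⁆ * a⁻¹) := by
      simp only [commutatorElement_def]; group
    rw [e2, hya, ← hcdef, B.hab h a (comm_mem x c) c hc, mul_inv_cancel_right]
  obtain ⟨g, hg⟩ := isConj_iff.mp (hα c)
  have hgw : ⁅g, c⁆ = w := by rw [commutatorElement_def, hg, e1, mul_inv_cancel_right]
  obtain ⟨t, ht, i, j, rfl⟩ := nf2 hxy g
  have hac : a ∈ commutator G := comm_mem x c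
  have hx2 : ⁅x * x, c⁆ = 1 := by rw [D_gh, ← hadef, hxa, one_mul]; exact B.Dsq h x hc
  have hy2 : ⁅y * y, c⁆ = 1 := by rw [D_gh, ← hbdef, hyb, one_mul]; exact B.Dsq h y hc
  have hL : LL w a := B.Lg3 (g3_mem hc x)
  have hi := even_or y c hy2 i
  have hj := even_or x c hx2 j
  have hwK : w ∈ Subgroup.zpowers w := Subgroup.mem_zpowers w
  have e3 : ⁅t * y ^ i * x ^ j, c⁆ = ⁅y ^ i, ⁅x ^ j, c⁆⁆ * ⁅x ^ j, c⁆ * ⁅y ^ i, c⁆ := by
    rw [mul_assoc, D_gh, B.Ds h ht (comm_mem _ _), B.Ds h ht hc, one_mul, mul_one, D_gh]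
  rw [e3] at hgw
  rcases hj with hj | hj
  · rw [hj, commutatorElement_one_right, one_mul, one_mul] at hgw
    rcases hi with hi | hi
    · rw [hi] at hgw; exact B.w1 hgw.symm
    · rw [hi] at hgw
      apply B.II2 hG h hxy
      rw [← hcdef, hgw]; exact hwK
  · rw [hj, ← hadef] at hgw
    rcases hi with hi | hi
    · rw [hi, mul_one] at hgw
      apply B.II hG h hxy
      rw [← hcdef, ← hadef]
      have : a = ⁅y ^ i, a⁆⁻¹ * w := by rw [← hgw, inv_mul_cancel_left]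
      rw [this]
      exact mul_mem (inv_mem (hL.2 _)) hwK
    · rw [hi, ← hbdef] at hgw
      apply B.II3 hG h hxy
      rw [← hcdef, ← hadef, ← hbdef]
      have : a * b = ⁅y ^ i, a⁆⁻¹ * w := by rw [← hgw, mul_assoc, inv_mul_cancel_left]
      rw [this]
      exact mul_mem (inv_mem (hL.2 _)) hwK

theorem Bad.false [Finite G] (hG : IsPGroup 2 G) (B : Bad G w) (h : Star G 2) : False := by
  obtain ⟨x, y, hxy, hxa, hxb⟩ : ∃ x y : G, Subgroup.closure {x, y} = ⊤ ∧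
      ⁅x, ⁅x, ⁅y, x⁆⁆⁆ = w ∧ ⁅x, ⁅y, ⁅y, x⁆⁆⁆ = 1 := by
    obtain ⟨x, y, hxy, hxa⟩ := B.lemC hG h
    have hc : ⁅y, x⁆ ∈ commutator G := comm_mem y x
    rcases B.g4 _ (g3_mem hc y) x with h1 | h1
    · exact ⟨x, y, hxy, hxa, h1⟩
    · have e1 : ⁅y * x, x⁆ = ⁅y, x⁆ := by simp only [commutatorElement_def]; group
      refine ⟨x, y * x, ?_, ?_, ?_⟩
      · have := gen_tw hxy 1
        rw [zpow_one] at this
        exact gen_swap this
      · rw [e1]; exact hxa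
      · rw [e1, D_gh, mul_assoc, B.Dm h x (comm_mem _ _), B.Kcen (B.g4K (g3_mem hc x) y) x,
          one_mul, B.Dm h x (comm_mem _ _), hxa, h1, B.w2]
  have hc : ⁅y, x⁆ ∈ commutator G := comm_mem y x
  have hya : ⁅y, ⁅x, ⁅y, x⁆⁆⁆ = 1 := by rw [B.sym h y x hc, hxb]
  have hyb : ⁅y, ⁅y, ⁅y, x⁆⁆⁆ = w := by
    have h1 := B.lemB hG h (gen_swap hxy)
    rw [← commutatorElement_inv y x, B.Di h y hc, B.Dinv h y hc, B.Di h x hc, B.Dinv h x hc] at h1
    rcases h1 with h1 | h1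
    · exact h1
    · exfalso; rw [hya] at h1; exact B.w1 h1.symm
  set c := ⁅y, x⁆ with hcdef
  set a := ⁅x, c⁆ with hadef
  set b := ⁅y, c⁆ with hbdef
  have hac : a ∈ commutator G := comm_mem x c
  have hbc : b ∈ commutator G := comm_mem y c
  have haL : LL w a := B.Lg3 (g3_mem hc x)
  have hbL : LL w b := B.Lg3 (g3_mem hc y)
  have haa : a * a = 1 := B.Dsq h x hc
  have hbb : b * b = 1 := B.Dsq h y hc
  have hcK : c * c ∈ Subgroup.zpowers w := B.sqK hc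
  have hccc : (c * c) * (c * c) = 1 := B.Ksq hcK
  have hcccen : ∀ g : G, (c * c) * g = g * (c * c) := fun g =>
    (commutatorElement_eq_one_iff_mul_comm.mp (B.Kcen hcK g)).symm
  obtain ⟨α, hα, hαx, hαy⟩ := h.full2 hxy a 1 hac (one_mem _)
  rw [one_mul] at hαy
  set g0 := (x * x) * (y * y) with hg0
  have e1 : α g0 = w * g0 := by
    rw [hg0, map_mul, map_mul, map_mul, hαx, hαy]
    have e2 : x * a * x⁻¹ = w * a := by rw [← hxa, commutatorElement_def]; group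
    calc a * x * (a * x) * (y * y) = a * (x * a * x⁻¹) * (x * x * (y * y)) := by
          simp only [mul_assoc, inv_mul_cancel_left]
      _ = a * (w * a) * (x * x * (y * y)) := by rw [e2]
      _ = (a * w) * a * (x * x * (y * y)) := by simp only [mul_assoc]
      _ = (w * a) * a * (x * x * (y * y)) := by rw [B.wc a]
      _ = w * (a * a) * (x * x * (y * y)) := by simp only [mul_assoc]
      _ = w * (x * x * (y * y)) := by rw [haa, mul_one]
  obtain ⟨g, hg⟩ := isConj_iff.mp (hα g0)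
  have hgw : ⁅g, g0⁆ = w := by rw [commutatorElement_def, hg, e1, mul_inv_cancel_right]
  -- the derived subgroup centralises g0
  have hcg : ⁅g0, c⁆ = 1 := by
    have h1 : ⁅x * x, c⁆ = w := by
      rw [D_gh, ← hadef, hxa, mul_assoc, haa, mul_one]
    have h2 : ⁅y * y, c⁆ = w := by
      rw [D_gh, ← hbdef, hyb, mul_assoc, hbb, mul_one]
    rw [hg0, D_gh, h2, h1, B.Kcen (Subgroup.mem_zpowers w), one_mul, B.w2]
  have h3g : ∀ t ∈ ⁅commutator G, (⊤ : Subgroup G)⁆, ⁅g0, t⁆ = 1 := by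
    intro t ht
    have h1 : ∀ u : G, ⁅u * u, t⁆ = 1 := by
      intro u
      rw [D_gh, B.Kcen (B.g4K ht u) u, one_mul]
      exact B.Ksq (B.g4K ht u)
    rw [hg0, D_gh, h1 y, h1 x, commutatorElement_one_right, one_mul, one_mul]
  have htg : ∀ t ∈ commutator G, ⁅t, g0⁆ = 1 := by
    intro t ht
    obtain ⟨k, s, hs, rfl⟩ := comm_dec' hxy t ht
    rw [commutatorElement_eq_one_iff_mul_comm]
    have c1 : Commute (c ^ k) g0 :=
      (show Commute c g0 from (commutatorElement_eq_one_iff_mul_comm.mp hcg).symm).zpow_left k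
    have c2 : Commute s g0 := (commutatorElement_eq_one_iff_mul_comm.mp (h3g s hs)).symm
    exact c1.mul_left c2
  -- commutators of the generators with g0
  have hyg : ⁅y, g0⁆ = a * (c * c) := by
    have e2 : ⁅y, g0⁆ = ⁅y, x⁆ * (x * ⁅y, x⁆ * x⁻¹) := by
      rw [hg0]; simp only [commutatorElement_def]; group
    have e3 : x * c * x⁻¹ = a * c := by rw [hadef, commutatorElement_def]; group
    rw [e2, ← hcdef, e3, ← mul_assoc, B.hab h c hc a hac, mul_assoc]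
  have hxg : ⁅x, g0⁆ = b * (c * c) := by
    have e2 : ⁅x, g0⁆ = (x * x) * (⁅x, y⁆ * (y * ⁅x, y⁆ * y⁻¹)) * (x * x)⁻¹ := by
      rw [hg0]; simp only [commutatorElement_def]; group
    have e3 : y * ⁅x, y⁆ * y⁻¹ = (b * c)⁻¹ := by
      rw [← commutatorElement_inv y x, ← hcdef, hbdef, commutatorElement_def]; group
    have e4 : ⁅x, y⁆ * (b * c)⁻¹ = b * (c * c) := by
      rw [← commutatorElement_inv y x, ← hcdef, mul_inv_rev]
      have e5 : b⁻¹ = b := inv_eq_of_mul_eq_one_right hbb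
      have e6 : c⁻¹ * (c⁻¹ * b⁻¹) = (c * c)⁻¹ * b := by rw [e5, mul_inv_rev, mul_assoc]
      rw [e6, inv_eq_of_mul_eq_one_right hccc, hcccen]
    have e5 : ⁅x * x, b * (c * c)⁆ = 1 := by
      rw [D_gh]
      have e6 : ⁅x, b * (c * c)⁆ = 1 := by
        rw [B.Dm h x hbc, hxb, B.Kcen hcK, one_mul]
      rw [e6, commutatorElement_one_right, one_mul, one_mul]
    rw [e2, e3, e4, commutatorElement_eq_one_iff_mul_comm.mp e5, mul_inv_cancel_right]
  have hx2 : ⁅x * x, g0⁆ = 1 := by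
    have e2 : ⁅x, b * (c * c)⁆ = 1 := by
      rw [B.Dm h x hbc, hxb, B.Kcen hcK, one_mul]
    rw [D_gh, hxg, e2, one_mul]
    calc b * (c * c) * (b * (c * c)) = b * ((c * c) * b) * (c * c) := by simp only [mul_assoc]
      _ = b * (b * (c * c)) * (c * c) := by rw [hcccen b]
      _ = (b * b) * ((c * c) * (c * c)) := by simp only [mul_assoc]
      _ = 1 := by rw [hbb, hccc, one_mul]
  have hy2 : ⁅y * y, g0⁆ = 1 := by
    have e2 : ⁅y, a * (c * c)⁆ = 1 := by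
      rw [B.Dm h y hac, hya, B.Kcen hcK, one_mul]
    rw [D_gh, hyg, e2, one_mul]
    calc a * (c * c) * (a * (c * c)) = a * ((c * c) * a) * (c * c) := by simp only [mul_assoc]
      _ = a * (a * (c * c)) * (c * c) := by rw [hcccen a]
      _ = (a * a) * ((c * c) * (c * c)) := by simp only [mul_assoc]
      _ = 1 := by rw [haa, hccc, one_mul]
  obtain ⟨t, ht, i, j, rfl⟩ := nf2 hxy g
  have hi := even_or y g0 hy2 i
  have hj := even_or x g0 hx2 j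
  have hwK : w ∈ Subgroup.zpowers w := Subgroup.mem_zpowers w
  have e3 : ⁅t * y ^ i * x ^ j, g0⁆ = ⁅y ^ i, ⁅x ^ j, g0⁆⁆ * ⁅x ^ j, g0⁆ * ⁅y ^ i, g0⁆ := by
    rw [mul_assoc, D_gh, B.Ds h ht (comm_mem _ _), htg t ht, one_mul, mul_one, D_gh]
  rw [e3] at hgw
  have hEL : LL w (b * (c * c)) := B.Lmul h hbL (B.Lw hcK)
  rcases hj with hj | hj
  · rw [hj, commutatorElement_one_right, one_mul, one_mul] at hgw
    rcases hi with hi | hi
    · rw [hi] at hgw; exact B.w1 hgw.symm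
    · rw [hi, hyg] at hgw
      apply B.II hG h hxy
      rw [← hcdef, ← hadef]
      have : a = w * (c * c)⁻¹ := by rw [← hgw, mul_inv_cancel_right]
      rw [this]
      exact mul_mem hwK (inv_mem hcK)
  · rw [hj, hxg] at hgw
    rcases hi with hi | hi
    · rw [hi, mul_one] at hgw
      apply B.II2 hG h hxy
      rw [← hcdef, ← hbdef]
      have : b = ⁅y ^ i, b * (c * c)⁆⁻¹ * w * (c * c)⁻¹ := by
        rw [← hgw, inv_mul_cancel_left, mul_inv_cancel_right]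
      rw [this]
      exact mul_mem (mul_mem (inv_mem (hEL.2 _)) hwK) (inv_mem hcK)
    · rw [hi, hyg] at hgw
      apply B.II3 hG h hxy
      rw [← hcdef, ← hadef, ← hbdef]
      have e4 : b * (c * c) * (a * (c * c)) = a * b := by
        calc b * (c * c) * (a * (c * c)) = b * ((c * c) * a) * (c * c) := by
              simp only [mul_assoc]
          _ = b * (a * (c * c)) * (c * c) := by rw [hcccen a]
          _ = (b * a) * ((c * c) * (c * c)) := by simp only [mul_assoc]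
          _ = a * b := by rw [hccc, mul_one, B.hab h b hbc a hac]
      rw [mul_assoc, e4] at hgw
      have : a * b = ⁅y ^ i, b * (c * c)⁆⁻¹ * w := by rw [← hgw, inv_mul_cancel_left]
      rw [this]
      exact mul_mem (inv_mem (hEL.2 _)) hwK

end BadSec

/-- two generators, `p = 2`, non-cyclic derived subgroup: it is elementary abelian and the class
is at most three -/
theorem nec_noncyc {G : Type} [Group G] [Finite G] (hG : IsPGroup 2 G) (h : Star G 2)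
    (hnc : ¬ ∃ c, commutator G = Subgroup.zpowers c) :
    (∀ z ∈ commutator G, z * z = 1) ∧
      ∀ t ∈ ⁅commutator G, (⊤ : Subgroup G)⁆, ∀ g : G, ⁅g, t⁆ = 1 := by
  haveI : Fact (Nat.Prime 2) := ⟨Nat.prime_two⟩
  haveI : Group.IsNilpotent G := hG.isNilpotent
  obtain ⟨x, y, hxy⟩ := h.ex2
  let SQ : Subgroup G := Subgroup.closure {t : G | ∃ c ∈ commutator G, t = c ^ 2}
  haveI hSQ : SQ.Normal := closure_pow_normal 2
  let g3 : Subgroup G := ⁅commutator G, (⊤ : Subgroup G)⁆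
  let K : Subgroup G := ⁅g3, (⊤ : Subgroup G)⁆ ⊔ SQ
  have hSQc : SQ ≤ commutator G := by
    rw [Subgroup.closure_le]
    rintro _ ⟨c, hc, rfl⟩
    exact pow_mem hc 2
  have hKc : K ≤ commutator G :=
    sup_le ((Subgroup.commutator_le_left _ _).trans g3_le) hSQc
  have hg3K : ¬ g3 ≤ K := by
    intro h1
    have h2 : g3 ≤ SQ := nil_le g3 SQ h1
    apply hnc
    refine ⟨⁅y, x⁆, cyc_of hG _ (comm_mem y x) ((comm_dec hxy).trans (sup_le_sup le_rfl ?_))⟩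
    exact h2.trans le_sup_left
  by_cases hK : K ≤ ⊥
  · constructor
    · intro z hz
      have h1 : z ^ 2 ∈ K := Subgroup.mem_sup_right (Subgroup.subset_closure ⟨z, hz, rfl⟩)
      rw [← pow_two]
      exact (Subgroup.mem_bot).mp (hK h1)
    · intro t ht g
      have h1 : ⁅t, g⁆ ∈ K := Subgroup.mem_sup_left
        (Subgroup.commutator_mem_commutator ht (Subgroup.mem_top g))
      rw [← commutatorElement_inv, (Subgroup.mem_bot).mp (hK h1), inv_one]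
  · exfalso
    obtain ⟨N, hN, -, hNK, hKN, hN1, hN2, hN3⟩ := exists_N hG K ⊥ K le_rfl bot_le hK
    haveI := hN
    obtain ⟨a, haK, haN⟩ := SetLike.not_le_iff_exists.mp hKN
    have hmk : ∀ g : G, (g : G ⧸ N) = 1 ↔ g ∈ N := fun g => QuotientGroup.eq_one_iff g
    have hst : Star (G ⧸ N) 2 := h.quot N (hNK.trans (hKc.trans (commG_le_frattini hG)))
    have haa : ((a : G ⧸ N)) * (a : G ⧸ N) = 1 := by
      show ((a * a : G) : G ⧸ N) = 1
      rw [hmk, ← pow_two]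
      exact hN2 a haK
    have hdich : ∀ b ∈ K, (b : G ⧸ N) = 1 ∨ (b : G ⧸ N) = (a : G ⧸ N) := by
      intro b hb
      obtain ⟨k, hk⟩ := hN3 a haK haN b hb
      have h1 : (b : G ⧸ N) * (a : G ⧸ N) ^ k = 1 := (hmk _).mpr hk
      have h2 : ∀ l : ℤ, (a : G ⧸ N) ^ (2 * l) = 1 := by
        intro l
        rw [zpow_mul, show (2 : ℤ) = ((2 : ℕ) : ℤ) by rfl, zpow_natCast, pow_two, haa, one_zpow]
      rcases Int.even_or_odd k with ⟨l, hl⟩ | ⟨l, hl⟩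
      · left
        rwa [hl, ← two_mul, h2, mul_one] at h1
      · right
        rw [hl, zpow_add, h2, one_mul, zpow_one] at h1
        rw [eq_inv_of_mul_eq_one_left h1]
        exact inv_eq_of_mul_eq_one_right haa
    have B : Bad (G ⧸ N) (a : G ⧸ N) := by
      refine ⟨fun h1 => haN ((hmk a).mp h1), haa, ?_, ?_, ?_, ?_, ?_⟩
      · intro g
        obtain ⟨g, rfl⟩ := QuotientGroup.mk_surjective g
        symm
        rw [← commutatorElement_eq_one_iff_mul_comm]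
        show ((⁅g, a⁆ : G) : G ⧸ N) = 1
        rw [hmk]
        exact hN1 a haK g
      · intro c hc
        obtain ⟨c, hc', rfl⟩ := exists_comm_lift N c hc
        refine hdich (c * c) (Subgroup.mem_sup_right (Subgroup.subset_closure ⟨c, hc', ?_⟩))
        rw [pow_two]
      · intro t ht g
        obtain ⟨t, ht', rfl⟩ := g3_quot ht
        obtain ⟨g, rfl⟩ := QuotientGroup.mk_surjective g
        refine hdich ⁅g, t⁆ (Subgroup.mem_sup_left ?_)
        rw [← commutatorElement_inv]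
        exact inv_mem (Subgroup.commutator_mem_commutator ht' (Subgroup.mem_top g))
      · by_contra hcon
        push Not at hcon
        obtain ⟨hc1, hc2⟩ := hcon
        apply hKN
        refine sup_le ?_ ?_
        · rw [Subgroup.commutator_le]
          intro t ht g _
          rw [← hmk]
          have hmem : ⁅t, g⁆ ∈ K := Subgroup.mem_sup_left
            (Subgroup.commutator_mem_commutator ht (Subgroup.mem_top g))
          rcases hdich _ hmem with h1 | h1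
          · exact h1
          · exfalso
            have ht' : (t : G ⧸ N) ∈ ⁅commutator (G ⧸ N), (⊤ : Subgroup (G ⧸ N))⁆ := by
              have h5 : (⁅commutator G, (⊤ : Subgroup G)⁆).map (QuotientGroup.mk' N)
                  = ⁅commutator (G ⧸ N), (⊤ : Subgroup (G ⧸ N))⁆ := by
                rw [Subgroup.map_commutator, map_comm,
                  Subgroup.map_top_of_surjective _ (QuotientGroup.mk'_surjective N)]
              rw [← h5]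
              exact ⟨t, ht, rfl⟩
            apply hc2 _ ht' (g : G ⧸ N)
            have h6 : ⁅(t : G ⧸ N), (g : G ⧸ N)⁆ = (a : G ⧸ N) := h1
            rw [← commutatorElement_inv, h6]
            exact inv_eq_of_mul_eq_one_right haa
        · rw [Subgroup.closure_le]
          rintro _ ⟨c, hc, rfl⟩
          show c ^ 2 ∈ N
          rw [← hmk]
          rcases hdich (c ^ 2) (Subgroup.mem_sup_right (Subgroup.subset_closure ⟨c, hc, rfl⟩))
            with h1 | h1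
          · exact h1
          · exfalso
            apply hc1 _ (mk_comm N c hc)
            rw [← h1, pow_two]
            rfl
      · obtain ⟨t, ht, htK⟩ := SetLike.not_le_iff_exists.mp hg3K
        have ht' : (t : G ⧸ N) ∈ ⁅commutator (G ⧸ N), (⊤ : Subgroup (G ⧸ N))⁆ := by
          have h5 : (⁅commutator G, (⊤ : Subgroup G)⁆).map (QuotientGroup.mk' N)
              = ⁅commutator (G ⧸ N), (⊤ : Subgroup (G ⧸ N))⁆ := by
            rw [Subgroup.map_commutator, map_comm,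
              Subgroup.map_top_of_surjective _ (QuotientGroup.mk'_surjective N)]
          rw [← h5]
          exact ⟨t, ht, rfl⟩
        refine ⟨(t : G ⧸ N), ht', fun h1 => htK (hNK ((hmk t).mp h1)), fun h1 => htK ?_⟩
        have h2 : a⁻¹ * t ∈ N := QuotientGroup.eq.mp h1.symm
        have h3 : t = a * (a⁻¹ * t) := by group
        rw [h3]
        exact mul_mem haK (hNK h2)
    exact B.false (hG.to_quotient N) hst

end Pool.Agent.K7.H88.AC
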