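import Mathlib
import Pool.Agent.K7.H88.AC.NecFour

/-!
Sufficiency of the conditions.
-/

set_option autoImplicit false

open scoped commutatorElement

namespace Pool.Agent.K7.H88.AC

open Pool.Agent.Helper832.AutC

section One

variable {p : ℕ} [hp : Fact p.Prime] {G : Type} [Group G] [Finite G]

omit hp in
theorem not_frattini' {d : ℕ}
    (hle : ∀ (m : ℕ) (x : Fin m → G), Subgroup.closure (Set.range x) = ⊤ → d ≤ m)
    (x : Fin d → G)
    (hx : Subgroup.closure (Set.range x) = ⊤) (i : Fin d)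
    (hv : x i ∈ Subgroup.closure (x '' {i}ᶜ) ⊔ frattini G) : False := by
  have h1 : Subgroup.closure (x '' {i}ᶜ) ⊔ frattini G = ⊤ := by
    rw [eq_top_iff, ← hx, Subgroup.closure_le]
    rintro _ ⟨k, rfl⟩
    by_cases hk : k = i
    · subst hk; exact hv
    · exact (le_sup_left : _ ≤ Subgroup.closure (x '' {i}ᶜ) ⊔ frattini G)
        (Subgroup.subset_closure ⟨k, hk, rfl⟩)
  have h2 := frattini_nongenerating h1
  cases d with
  | zero => exact i.elim0
  | succ m =>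
    have h3 := hle m (fun k => x (i.succAbove k)) (by
      rw [← h2]
      congr 1
      rw [show (fun k => x (i.succAbove k)) = x ∘ i.succAbove from rfl, Set.range_comp,
        Fin.range_succAbove])
    omega

theorem wd_split {M : Type} [CommGroup M] (φ : G →* M) {d : ℕ} (x : Fin d → G) (b : Fin d → ℤ)
    (i : Fin d) : φ (wd x b) = φ (x i) ^ b i * ∏ k ∈ Finset.univ.erase i, φ (x k) ^ b k := by
  rw [hom_wd]
  exact (Finset.mul_prod_erase Finset.univ (fun k => φ (x k) ^ b k) (Finset.mem_univ i)).symm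

theorem crit_of_a1 (hG : IsPGroup p G) (hc : ∀ a b c : G, ⁅⁅a, b⁆, c⁆ = 1) {d : ℕ}
    (hle : ∀ (m : ℕ) (x : Fin m → G), Subgroup.closure (Set.range x) = ⊤ → d ≤ m)
    (x : Fin d → G) (hx : Subgroup.closure (Set.range x) = ⊤)
    (hA : ∀ x : G, x ∉ frattini G → ∀ y ∈ commutator G, ∃ g : G, ⁅g, x⁆ = y) : Crit hc x := by
  classical
  intro a j g
  by_cases ha : a = 0
  · refine ⟨1, ?_⟩
    subst ha
    simp
  · -- extract the gcd
    obtain ⟨i0, hi0⟩ : ∃ i, a i ≠ 0 := by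
      by_contra hcon
      push Not at hcon
      exact ha (funext hcon)
    obtain ⟨b, hb1, hb2⟩ := Finset.extract_gcd a ⟨i0, Finset.mem_univ i0⟩
    set D := Finset.univ.gcd a with hD
    have hex : ∃ i, ¬ (p : ℤ) ∣ b i := by
      by_contra hcon
      push Not at hcon
      have h1 : (p : ℤ) ∣ Finset.univ.gcd b := Finset.dvd_gcd (fun i _ => hcon i)
      rw [hb2] at h1
      exact hp.out.one_lt.ne' (Nat.dvd_one.mp (by exact_mod_cast h1))
    obtain ⟨i, hi⟩ := hex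
    have hu : wd x b ∉ frattini G := by
      intro hu
      apply not_frattini' hle x hx i
      haveI : (Subgroup.closure (x '' {i}ᶜ) ⊔ frattini G).Normal := by
        obtain ⟨hF1, hF2⟩ := frattini_facts hG
        refine ⟨fun n hn g => ?_⟩
        have e1 : g * n * g⁻¹ = ⁅g, n⁆ * n := by simp only [commutatorElement_def]; group
        rw [e1]
        exact mul_mem (Subgroup.mem_sup_right (hF1 g n)) hn
      refine mem_of_zpow_mem hG _ (x i) (b i) hi ?_
      obtain ⟨hF1, hF2⟩ := frattini_facts hG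
      let V := G ⧸ frattini G
      letI : CommGroup V :=
        { (inferInstance : Group (G ⧸ frattini G)) with
          mul_comm := by
            intro a b
            obtain ⟨a, rfl⟩ := QuotientGroup.mk'_surjective (frattini G) a
            obtain ⟨b, rfl⟩ := QuotientGroup.mk'_surjective (frattini G) b
            rw [← commutatorElement_eq_one_iff_mul_comm, ← map_commutatorElement]
            exact (QuotientGroup.eq_one_iff _).mpr (hF1 a b) }
      let π : G →* V := QuotientGroup.mk' (frattini G)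
      have hπ : π (wd x b) = 1 := (QuotientGroup.eq_one_iff _).mpr hu
      rw [wd_split π x b i] at hπ
      have h2 : ∏ k ∈ Finset.univ.erase i, π (x k) ^ b k
          ∈ (Subgroup.closure (x '' {i}ᶜ)).map π := by
        refine Subgroup.prod_mem _ (fun k hk => zpow_mem ?_ _)
        exact ⟨x k, Subgroup.subset_closure ⟨k, Finset.ne_of_mem_erase hk, rfl⟩, rfl⟩
      obtain ⟨h, hh, hhe⟩ := h2
      have hhe' : π h = ∏ k ∈ Finset.univ.erase i, π (x k) ^ b k := hhe
      rw [← hhe', ← map_zpow, ← map_mul] at hπ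
      have h3 : x i ^ b i * h ∈ frattini G := (QuotientGroup.eq_one_iff _).mp hπ
      have e1 : x i ^ b i = (x i ^ b i * h) * h⁻¹ := by group
      rw [e1]
      exact mul_mem (Subgroup.mem_sup_right h3) (inv_mem (Subgroup.mem_sup_left hh))
    obtain ⟨h, hh⟩ := hA (wd x b) hu (⁅x j ^ b j, g⁆)⁻¹ (inv_mem (comm_mem _ _))
    refine ⟨h, ?_⟩
    have h1 : pr hc (wd x b) h = (pr hc (x j) g) ^ b j := by
      rw [← pr_zpow]
      apply Subtype.ext
      show ⁅wd x b, h⁆ = ⁅x j ^ b j, g⁆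
      rw [← commutatorElement_inv, hh, inv_inv]
    have h2 : ∀ k, a k = b k * D := fun k => by rw [hb1 k (Finset.mem_univ k), mul_comm]
    have h3 : ∏ k, (pr hc (x k) h) ^ a k = (pr hc (wd x b) h) ^ D := by
      rw [pr_wd, ← Finset.prod_zpow]
      refine Finset.prod_congr rfl (fun k _ => ?_)
      rw [h2, zpow_mul]
    rw [h3, h1, h2, zpow_mul]

/-- sufficiency, class at most two -/
theorem suff_one (hG : IsPGroup p G) (hc : ∀ a b c : G, ⁅⁅a, b⁆, c⁆ = 1)
    (hA : ∀ x : G, x ∉ frattini G → ∀ y ∈ commutator G, ∃ g : G, ⁅g, x⁆ = y) :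
    Nat.card (AutC G) = Nat.card (commutator G) ^ Group.rank G := by
  obtain ⟨x, hx⟩ := exists_rank (G := G)
  have hle := rank_le (G := G)
  rw [card_iff x hx]
  have hS := surjP_of_crit hc x hx (crit_of_a1 hG hc hle x hx hA)
  intro y hy
  refine hS (fun i => y i * x i) (fun i => ?_)
  have hxi : x i ∉ frattini G := fun h =>
    not_frattini' hle x hx i (Subgroup.mem_sup_right h)
  obtain ⟨g, hg⟩ := hA (x i) hxi (y i) (hy i)
  refine isConj_iff.mpr ⟨g, ?_⟩
  rw [← hg, commutatorElement_def]; group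

end One

section Two

variable {p : ℕ} [hp : Fact p.Prime] {G : Type} [Group G] [Finite G]

theorem lte (p : ℕ) (hp : p.Prime) (u : ℤ) (hu : (p : ℤ) ∣ u - 1) (hu4 : p = 2 → (4 : ℤ) ∣ u - 1)
    (n k : ℕ) (h : ((p : ℤ) ^ n) ∣ ∑ i ∈ Finset.range k, u ^ i) : p ^ n ∣ k := by
  by_cases hu1 : u = 1
  · subst hu1
    simp only [one_pow, Finset.sum_const, Finset.card_range, nsmul_eq_mul, mul_one] at h
    exact_mod_cast h
  have hgs : (u - 1) * ∑ i ∈ Finset.range k, u ^ i = u ^ k - 1 := by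
    rw [mul_comm]; exact geom_sum_mul u k
  have hpu : ¬ (p : ℤ) ∣ u := by
    intro h1
    have h2 : (p : ℤ) ∣ 1 := by
      have := dvd_sub h1 hu
      simpa using this
    exact hp.one_lt.ne' (Nat.dvd_one.mp (by exact_mod_cast h2))
  have key : emultiplicity (p : ℤ) (u ^ k - 1) = emultiplicity (p : ℤ) (u - 1)
      + emultiplicity p k := by
    rcases hp.eq_two_or_odd' with rfl | hodd
    · have h1 := Int.two_pow_sub_pow' (x := u) (y := 1) k (hu4 rfl) hpu
      rw [one_pow] at h1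
      have h2 : emultiplicity (2 : ℤ) (k : ℤ) = emultiplicity 2 k := by
        have := Int.natCast_emultiplicity 2 k
        exact_mod_cast this
      rw [← h2]
      exact_mod_cast h1
    · have h1 := Int.emultiplicity_pow_sub_pow hp hodd (x := u) (y := 1) hu hpu k
      rw [one_pow] at h1
      exact h1
  rw [← hgs, emultiplicity_mul (Nat.prime_iff_prime_int.mp hp)] at key
  have hfin : emultiplicity (p : ℤ) (u - 1) ≠ ⊤ := by
    rw [Ne, emultiplicity_eq_top, not_not]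
    apply Int.finiteMultiplicity_iff.mpr
    refine ⟨?_, sub_ne_zero.mpr hu1⟩
    rw [Int.natAbs_natCast]
    exact hp.one_lt.ne'
  have h3 : emultiplicity (p : ℤ) (∑ i ∈ Finset.range k, u ^ i) = emultiplicity p k :=
    ENat.add_right_injective_of_ne_top hfin key
  have h4 := pow_dvd_iff_le_emultiplicity.mp h
  rw [h3] at h4
  exact pow_dvd_iff_le_emultiplicity.mpr h4

omit hp in
/-- the exponent of the action: `γ₃` lies in the `p`-th powers of a cyclic derived subgroup -/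
theorem g3_le_pow {p : ℕ} [hp : Fact p.Prime] (hG : IsPGroup p G) (c0 : G)
    (hc0 : commutator G = Subgroup.zpowers c0) :
    ∀ s ∈ ⁅commutator G, (⊤ : Subgroup G)⁆, ∃ k : ℤ, s = c0 ^ ((p : ℤ) * k) := by
  haveI : Group.IsNilpotent G := hG.isNilpotent
  intro s hs
  have hs1 : s ∈ Subgroup.zpowers c0 := by rw [← hc0]; exact g3_le hs
  obtain ⟨k, hk⟩ := hs1
  have hk' : c0 ^ k = s := hk
  by_cases hpk : (p : ℤ) ∣ k
  · obtain ⟨l, rfl⟩ := hpk
    exact ⟨l, hk'.symm⟩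
  · refine ⟨0, ?_⟩
    have h1 : c0 ∈ ⁅commutator G, (⊤ : Subgroup G)⁆ :=
      mem_of_zpow_mem hG _ c0 k hpk (by rw [hk']; exact hs)
    have h2 : commutator G ≤ ⁅commutator G, (⊤ : Subgroup G)⁆ ⊔ ⊥ := by
      rw [sup_bot_eq]
      conv_lhs => rw [hc0]
      rw [Subgroup.zpowers_le]
      exact h1
    have h3 := nil_le _ _ h2
    rw [mul_zero, zpow_zero]
    exact (Subgroup.mem_bot).mp (h3 (g3_le hs))

theorem gen_c (hG : IsPGroup p G) (c0 : G) (hc0 : commutator G = Subgroup.zpowers c0) {x y : G}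
    (hxy : Subgroup.closure {x, y} = ⊤) : commutator G = Subgroup.zpowers ⁅y, x⁆ := by
  refine cyc_of hG _ (comm_mem y x) ((comm_dec hxy).trans (sup_le_sup le_rfl ?_))
  intro s hs
  obtain ⟨k, rfl⟩ := g3_le_pow hG c0 hc0 s hs
  refine Subgroup.mem_sup_left (Subgroup.subset_closure ⟨c0 ^ k, ?_, ?_⟩)
  · rw [hc0]; exact Subgroup.zpow_mem_zpowers c0 k
  · rw [← zpow_natCast, ← zpow_mul, mul_comm]

/-- `⁅y ^ k, x⁆ = c ^ (1 + u + ⋯ + u ^ (k - 1))` -/
theorem comm_pow_sum {x y : G} (u : ℤ) (hu : y * ⁅y, x⁆ * y⁻¹ = ⁅y, x⁆ ^ u) (k : ℕ) :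
    ⁅y ^ k, x⁆ = ⁅y, x⁆ ^ (∑ i ∈ Finset.range k, u ^ i) := by
  induction k with
  | zero => simp
  | succ k ih =>
    rw [pow_succ', comm_left, ih, ← conj_zpow, hu, ← zpow_mul, Finset.sum_range_succ']
    rw [pow_zero, zpow_add, zpow_one, Finset.mul_sum]
    congr 2
    refine Finset.sum_congr rfl (fun i _ => ?_)
    rw [pow_succ']

theorem dvd_of_comm (hG : IsPGroup p G) (c0 : G) (hc0 : commutator G = Subgroup.zpowers c0)
    (h4 : p = 2 → ∀ z ∈ commutator G, ∀ g : G, ∃ w ∈ commutator G, ⁅z, g⁆ = w ^ 4)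
    {x y : G} (hxy : Subgroup.closure {x, y} = ⊤) (n : ℕ)
    (hn : Nat.card (commutator G) = p ^ n) (k : ℕ) (hk : ⁅y ^ k, x⁆ = 1) : p ^ n ∣ k := by
  have hc := gen_c hG c0 hc0 hxy
  set c := ⁅y, x⁆ with hcdef
  have hcm : c ∈ commutator G := comm_mem y x
  obtain ⟨u, hu1, hu4, hu⟩ : ∃ u : ℤ, (p : ℤ) ∣ u - 1 ∧ (p = 2 → (4 : ℤ) ∣ u - 1) ∧
      y * c * y⁻¹ = c ^ u := by
    have e1 : y * c * y⁻¹ = ⁅y, c⁆ * c := by rw [commutatorElement_def]; group
    by_cases hp2 : p = 2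
    · obtain ⟨w, hw, hw4⟩ := h4 hp2 c hcm y
      rw [hc] at hw
      obtain ⟨l, rfl⟩ := hw
      refine ⟨4 * (-l) + 1, ?_, fun _ => ⟨-l, by ring⟩, ?_⟩
      · rw [hp2]
        exact ⟨2 * (-l), by push_cast; ring⟩
      · rw [e1, ← commutatorElement_inv, hw4]
        show ((c ^ l) ^ 4)⁻¹ * c = _
        rw [zpow_add, zpow_one, ← zpow_natCast, ← zpow_mul, ← zpow_neg]
        congr 2
        push_cast
        ring
    · obtain ⟨l, hl⟩ := g3_le_pow hG c hc _ (g3_mem hcm y)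
      refine ⟨(p : ℤ) * l + 1, ⟨l, by ring⟩, fun h => absurd h hp2, ?_⟩
      rw [e1, hl, zpow_add, zpow_one]
  rw [comm_pow_sum u hu k] at hk
  have h1 : (orderOf c : ℤ) ∣ ∑ i ∈ Finset.range k, u ^ i := orderOf_dvd_iff_zpow_eq_one.mpr hk
  have h2 : orderOf c = p ^ n := by rw [← Nat.card_zpowers, ← hc, hn]
  rw [h2] at h1
  refine lte p hp.out u hu1 hu4 n k ?_
  exact_mod_cast h1

omit hp in
theorem rank_two (hr : Group.rank G = 2) :
    (∃ x y : G, Subgroup.closure {x, y} = ⊤) ∧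
      (∀ x y : G, Subgroup.closure {x, y} = ⊤ → x ∉ frattini G) ∧
      (∀ x : G, Subgroup.zpowers x ≠ ⊤) := by
  have h1 : ∀ x : G, Subgroup.zpowers x ≠ ⊤ := by
    intro x hx
    have h3 := rank_le 1 (fun _ => x) (by
      rw [Set.range_const, ← Subgroup.zpowers_eq_closure, hx])
    omega
  refine ⟨?_, ?_, h1⟩
  · have h2 := exists_rank (G := G)
    rw [hr] at h2
    obtain ⟨z, hz⟩ := h2
    refine ⟨z 0, z 1, ?_⟩
    rw [← hz, ← range_pair]
    congr 1
    congr 1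
    funext i
    fin_cases i <;> rfl
  · intro x y hxy hx
    have h2 : Subgroup.zpowers y ⊔ frattini G = ⊤ := by
      rw [eq_top_iff, ← hxy, Subgroup.closure_le]
      rintro _ (rfl | rfl)
      · exact Subgroup.mem_sup_right hx
      · exact Subgroup.mem_sup_left (Subgroup.mem_zpowers _)
    exact h1 y (frattini_nongenerating h2)

omit hp in
theorem card_of_full (hr : Group.rank G = 2) {x y : G} (hxy : Subgroup.closure {x, y} = ⊤)
    (h : ∀ s ∈ commutator G, ∀ t ∈ commutator G, ∃ α ∈ AutC G, α x = s * x ∧ α y = t * y) :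
    Nat.card (AutC G) = Nat.card (commutator G) ^ Group.rank G := by
  rw [hr, card_iff ![x, y] (by rw [range_pair, hxy])]
  intro z hz
  obtain ⟨α, hα, h1, h2⟩ := h (z 0) (hz 0) (z 1) (hz 1)
  refine ⟨α, hα, fun i => ?_⟩
  fin_cases i
  · exact h1
  · exact h2

omit hp in
theorem conj_mem_autC (g : G) : MulAut.conj g ∈ AutC G :=
  fun x => isConj_iff.mpr ⟨g, rfl⟩

/-- sufficiency, two generators and cyclic derived subgroup -/
theorem suff_two (hG : IsPGroup p G) (hr : Group.rank G = 2) (c0 : G)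
    (hc0 : commutator G = Subgroup.zpowers c0)
    (h4 : p = 2 → ∀ z ∈ commutator G, ∀ g : G, ∃ w ∈ commutator G, ⁅z, g⁆ = w ^ 4) :
    Nat.card (AutC G) = Nat.card (commutator G) ^ Group.rank G := by
  classical
  obtain ⟨⟨x, y, hxy⟩, -, -⟩ := rank_two hr
  obtain ⟨n, hn⟩ := IsPGroup.iff_card.mp (hG.to_subgroup (commutator G))
  have hy := dvd_of_comm hG c0 hc0 h4 hxy n hn
  have hx := dvd_of_comm hG c0 hc0 h4 (gen_swap hxy) n hn
  -- integer version
  have key : ∀ (u v : G), (∀ k : ℕ, ⁅u ^ k, v⁆ = 1 → p ^ n ∣ k) → ∀ i i' : Fin (p ^ n),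
      (u ^ (i : ℕ))⁻¹ * u ^ (i' : ℕ) * v = v * ((u ^ (i : ℕ))⁻¹ * u ^ (i' : ℕ)) → i = i' := by
    intro u v huv i i' h
    have h1 : ∀ a b : Fin (p ^ n), (a : ℕ) ≤ b →
        (u ^ (a : ℕ))⁻¹ * u ^ (b : ℕ) * v = v * ((u ^ (a : ℕ))⁻¹ * u ^ (b : ℕ)) → a = b := by
      intro a b hab h
      have e1 : (u ^ (a : ℕ))⁻¹ * u ^ (b : ℕ) = u ^ ((b : ℕ) - (a : ℕ)) := by
        rw [inv_mul_eq_iff_eq_mul, ← pow_add]
        congr 1
        omega
      rw [e1] at h
      have h2 := huv _ (commutatorElement_eq_one_iff_mul_comm.mpr h)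
      have h3 : (b : ℕ) - (a : ℕ) = 0 := Nat.eq_zero_of_dvd_of_lt h2 (by
        have := b.2
        omega)
      apply Fin.ext
      omega
    rcases le_total (i : ℕ) i' with hle | hle
    · exact h1 i i' hle h
    · refine (h1 i' i hle ?_).symm
      have e2 : (u ^ (i' : ℕ))⁻¹ * u ^ (i : ℕ) = ((u ^ (i : ℕ))⁻¹ * u ^ (i' : ℕ))⁻¹ := by
        rw [mul_inv_rev, inv_inv]
      rw [e2]
      exact (show Commute ((u ^ (i : ℕ))⁻¹ * u ^ (i' : ℕ)) v from h).inv_left
  let Ψ : Fin (p ^ n) × Fin (p ^ n) → commutator G × commutator G := fun q =>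
    (⟨⁅y ^ (q.1 : ℕ) * x ^ (q.2 : ℕ), x⁆, comm_mem _ _⟩,
      ⟨⁅y ^ (q.1 : ℕ) * x ^ (q.2 : ℕ), y⁆, comm_mem _ _⟩)
  have hΨ : Function.Injective Ψ := by
    rintro ⟨i, j⟩ ⟨i', j'⟩ h
    have h1 : ⁅y ^ (i : ℕ) * x ^ (j : ℕ), x⁆ = ⁅y ^ (i' : ℕ) * x ^ (j' : ℕ), x⁆ :=
      congrArg Subtype.val (congrArg Prod.fst h)
    have h2 : ⁅y ^ (i : ℕ) * x ^ (j : ℕ), y⁆ = ⁅y ^ (i' : ℕ) * x ^ (j' : ℕ), y⁆ :=
      congrArg Subtype.val (congrArg Prod.snd h)
    have hxx : ∀ k : ℕ, ⁅x ^ k, x⁆ = 1 := fun k =>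
      commutatorElement_eq_one_iff_mul_comm.mpr ((Commute.refl x).pow_left k)
    have gen : ∀ a b v : G, ⁅a, v⁆ = ⁅b, v⁆ → a⁻¹ * b * v = v * (a⁻¹ * b) := by
      intro a b v hab
      have e1 : a * v * a⁻¹ = b * v * b⁻¹ := by
        have : ⁅a, v⁆ * v = ⁅b, v⁆ * v := by rw [hab]
        rw [commutatorElement_def, commutatorElement_def, inv_mul_cancel_right,
          inv_mul_cancel_right] at this
        exact this
      calc a⁻¹ * b * v = a⁻¹ * (b * v * b⁻¹) * b := by group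
        _ = a⁻¹ * (a * v * a⁻¹) * b := by rw [e1]
        _ = v * (a⁻¹ * b) := by group
    have h3 : ⁅y ^ (i : ℕ), x⁆ = ⁅y ^ (i' : ℕ), x⁆ := by
      rw [comm_left, comm_left (y ^ (i' : ℕ)), hxx, hxx] at h1
      simpa using h1
    have hi : i = i' := key y x hy i i' (gen _ _ _ h3)
    subst hi
    have h4 := gen _ _ _ h2
    have e2 : (y ^ (i : ℕ) * x ^ (j : ℕ))⁻¹ * (y ^ (i : ℕ) * x ^ (j' : ℕ))
        = (x ^ (j : ℕ))⁻¹ * x ^ (j' : ℕ) := by group
    rw [e2] at h4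
    have hj : j = j' := key x y hx j j' h4
    rw [hj]
  have hbij : Function.Bijective Ψ := by
    refine hΨ.bijective_of_nat_card_le ?_
    rw [Nat.card_prod, Nat.card_prod, hn, Nat.card_eq_fintype_card, Fintype.card_fin]
  refine card_of_full hr hxy (fun s hs t ht => ?_)
  obtain ⟨⟨i, j⟩, hij⟩ := hbij.2 (⟨s, hs⟩, ⟨t, ht⟩)
  have h1 : ⁅y ^ (i : ℕ) * x ^ (j : ℕ), x⁆ = s := congrArg Subtype.val (congrArg Prod.fst hij)
  have h2 : ⁅y ^ (i : ℕ) * x ^ (j : ℕ), y⁆ = t := congrArg Subtype.val (congrArg Prod.snd hij)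
  refine ⟨MulAut.conj (y ^ (i : ℕ) * x ^ (j : ℕ)), conj_mem_autC _, ?_, ?_⟩
  · rw [← h1, MulAut.conj_apply, commutatorElement_def, inv_mul_cancel_right]
  · rw [← h2, MulAut.conj_apply, commutatorElement_def, inv_mul_cancel_right]

end Two

section Three

variable {G : Type} [Group G] [Finite G]

/-- the class of an element outside the Frattini subgroup contains its `γ₃`-coset -/
theorem g3_conj (hsq : ∀ z ∈ commutator G, z * z = 1)
    (h4 : ∀ t ∈ ⁅commutator G, (⊤ : Subgroup G)⁆, ∀ g : G, ⁅g, t⁆ = 1) {g h : G}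
    (hgh : Subgroup.closure {g, h} = ⊤) :
    ∀ s ∈ ⁅commutator G, (⊤ : Subgroup G)⁆, ∃ k : G, ⁅k, g⁆ = s := by
  have hcen : ∀ t ∈ ⁅commutator G, (⊤ : Subgroup G)⁆, ∀ k : G, k * t = t * k := fun t ht k =>
    commutatorElement_eq_one_iff_mul_comm.mp (h4 t ht k)
  let N : Subgroup G :=
    { carrier := {s | s ∈ Subgroup.center G ∧ ∃ k : G, ⁅k, g⁆ = s}
      mul_mem' := by
        rintro s t ⟨hs, k, hk⟩ ⟨ht, l, hl⟩
        refine ⟨mul_mem hs ht, l * k, ?_⟩
        rw [comm_left, hk, hl, Subgroup.mem_center_iff.mp hs l, mul_inv_cancel_right]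
      one_mem' := ⟨one_mem _, 1, commutatorElement_one_left _⟩
      inv_mem' := by
        rintro s ⟨hs, k, hk⟩
        refine ⟨inv_mem hs, k⁻¹, ?_⟩
        have e1 : ⁅k⁻¹, g⁆ = k⁻¹ * ⁅k, g⁆⁻¹ * k := by
          simp only [commutatorElement_def]; group
        rw [e1, hk, Subgroup.mem_center_iff.mp (inv_mem hs) k⁻¹, inv_mul_cancel_right] }
  haveI : N.Normal := by
    refine ⟨fun n hn k => ?_⟩
    have hn' : n ∈ Subgroup.center G ∧ ∃ k : G, ⁅k, g⁆ = n := hn
    rw [Subgroup.mem_center_iff.mp hn'.1 k, mul_inv_cancel_right]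
    exact hn
  have hc : ⁅h, g⁆ ∈ commutator G := comm_mem h g
  have h1 : ⁅g, ⁅h, g⁆⁆ ∈ N := by
    refine ⟨?_, ⁅h, g⁆⁻¹, ?_⟩
    · rw [Subgroup.mem_center_iff]
      exact hcen _ (g3_mem hc g)
    · have e1 : ⁅⁅h, g⁆⁻¹, g⁆ = ⁅h, g⁆⁻¹ * ⁅g, ⁅h, g⁆⁆ * ⁅h, g⁆ := by
        simp only [commutatorElement_def]; group
      rw [e1, hcen _ (g3_mem hc g), inv_mul_cancel_right]
  have h2 : ⁅h, ⁅h, g⁆⁆ ∈ N := by
    refine ⟨?_, h * h, ?_⟩
    · rw [Subgroup.mem_center_iff]
      exact hcen _ (g3_mem hc h)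
    · rw [comm_sq, hsq _ hc, mul_one]
  intro s hs
  exact (g3_le_of N hgh h1 h2 hs).2

/-- twisting one generator by an element of `γ₃` -/
theorem twist (hG : IsPGroup 2 G) (hr : Group.rank G = 2) (hsq : ∀ z ∈ commutator G, z * z = 1)
    (h4 : ∀ t ∈ ⁅commutator G, (⊤ : Subgroup G)⁆, ∀ g : G, ⁅g, t⁆ = 1) {x y : G}
    (hxy : Subgroup.closure {x, y} = ⊤) (m : G) (hm : m ∈ ⁅commutator G, (⊤ : Subgroup G)⁆) :
    ∃ α ∈ AutC G, α x = m * x ∧ α y = y := by
  classical
  haveI : Fact (Nat.Prime 2) := ⟨Nat.prime_two⟩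
  obtain ⟨-, hfr, hcyc⟩ := rank_two hr
  have hmc : ∀ k : G, k * m = m * k := fun k =>
    commutatorElement_eq_one_iff_mul_comm.mp (h4 m hm k)
  have hmm : m * m = 1 := hsq m (g3_le hm)
  obtain ⟨M, hM, hyM⟩ : ∃ M : Subgroup G, IsCoatom M ∧ Subgroup.zpowers y ≤ M := by
    rcases eq_top_or_exists_le_coatom (Subgroup.zpowers y) with h1 | h1
    · exact absurd h1 (hcyc y)
    · exact h1
  obtain ⟨hM1, hM2⟩ := coatom_facts hG M hM
  have hyM' : y ∈ M := hyM (Subgroup.mem_zpowers y)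
  have hxM : x ∉ M := by
    intro hx
    apply hM.1
    rw [eq_top_iff, ← hxy, Subgroup.closure_le]
    rintro _ (rfl | rfl)
    · exact hx
    · exact hyM'
  have hout : ∀ g h : G, g ∉ M → h ∉ M → g * h ∈ M := by
    intro g h hg hh
    obtain ⟨k, hk⟩ := coatom_dec hG M hM h hh g
    have he : ∀ l : ℤ, h ^ (2 * l) ∈ M := by
      intro l
      rw [zpow_mul]
      refine zpow_mem ?_ l
      rw [show (2 : ℤ) = ((2 : ℕ) : ℤ) by rfl, zpow_natCast]
      exact hM2 h
    rcases Int.even_or_odd k with ⟨l, hl⟩ | ⟨l, hl⟩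
    · exfalso
      rw [hl, ← two_mul] at hk
      exact hg ((Subgroup.mul_mem_cancel_right M (he l)).mp hk)
    · rw [hl, add_comm, zpow_add, zpow_one, ← mul_assoc] at hk
      exact (Subgroup.mul_mem_cancel_right M (he l)).mp hk
  let f : G → G := fun g => if g ∈ M then 1 else m
  have hf1 : ∀ g, g ∈ M → f g = 1 := fun g hg => if_pos hg
  have hf2 : ∀ g, g ∉ M → f g = m := fun g hg => if_neg hg
  have hfc : ∀ g k : G, k * f g = f g * k := by
    intro g k
    by_cases hg : g ∈ M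
    · rw [hf1 g hg, one_mul, mul_one]
    · rw [hf2 g hg, hmc]
  have hfm : ∀ g h : G, f (g * h) = f g * f h := by
    intro g h
    by_cases hg : g ∈ M <;> by_cases hh : h ∈ M
    · rw [hf1 g hg, hf1 h hh, hf1 _ (mul_mem hg hh), one_mul]
    · rw [hf1 g hg, hf2 h hh, one_mul, hf2]
      intro h1; exact hh ((Subgroup.mul_mem_cancel_left M hg).mp h1)
    · rw [hf2 g hg, hf1 h hh, mul_one, hf2]
      intro h1; exact hg ((Subgroup.mul_mem_cancel_right M hh).mp h1)
    · rw [hf2 g hg, hf2 h hh, hmm, hf1 _ (hout g h hg hh)]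
  let α : G →* G := MonoidHom.mk' (fun g => f g * g) (by
    intro g h
    show f (g * h) * (g * h) = f g * g * (f h * h)
    rw [hfm]
    calc f g * f h * (g * h) = f g * (f h * g) * h := by simp only [mul_assoc]
      _ = f g * (g * f h) * h := by rw [hfc]
      _ = f g * g * (f h * h) := by simp only [mul_assoc])
  have hα : ∀ g, α g = f g * g := fun g => rfl
  have hinj : Function.Injective α := by
    rw [injective_iff_map_eq_one]
    intro g hg
    rw [hα] at hg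
    have hgM : g ∈ M := by
      by_contra hgM
      rw [hf2 g hgM] at hg
      apply hgM
      rw [← inv_eq_of_mul_eq_one_right hg]
      have h1 : commutator G ≤ M := by
        rw [commutator_def, Subgroup.commutator_le]
        intro a _ b _
        exact hM1 a b
      exact inv_mem (h1 (g3_le hm))
    rwa [hf1 g hgM, one_mul] at hg
  have hbij : Function.Bijective α := Finite.injective_iff_bijective.mp hinj
  refine ⟨MulEquiv.ofBijective α hbij, fun g => ?_, ?_, ?_⟩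
  · by_cases hg : g ∈ M
    · show IsConj g (f g * g)
      rw [hf1 g hg, one_mul]
    · have hgF : g ∉ frattini G := fun h => hg (frattini_le_coatom hM h)
      obtain ⟨j, hj⟩ := exchange hG ![x, y] (by rw [range_pair, hxy]) g hgF
      have hgen : ∃ h : G, Subgroup.closure {g, h} = ⊤ := by
        fin_cases j
        · refine ⟨y, ?_⟩
          rw [← hj, ← range_pair]
          congr 1
          congr 1
          funext i
          fin_cases i <;> rfl
        · refine ⟨x, gen_swap ?_⟩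
          rw [← hj, ← range_pair]
          congr 1
          congr 1
          funext i
          fin_cases i <;> rfl
      obtain ⟨h, hgh⟩ := hgen
      obtain ⟨k, hk⟩ := g3_conj hsq h4 hgh m hm
      refine isConj_iff.mpr ⟨k, ?_⟩
      show k * g * k⁻¹ = f g * g
      rw [hf2 g hg, ← hk, commutatorElement_def, inv_mul_cancel_right]
  · show f x * x = m * x
    rw [hf2 x hxM]
  · show f y * y = y
    rw [hf1 y hyM', one_mul]

/-- sufficiency, two generators, elementary abelian derived subgroup, class at most three -/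
theorem suff_three (hG : IsPGroup 2 G) (hr : Group.rank G = 2)
    (hsq : ∀ z ∈ commutator G, z * z = 1)
    (h4 : ∀ t ∈ ⁅commutator G, (⊤ : Subgroup G)⁆, ∀ g : G, ⁅g, t⁆ = 1) :
    Nat.card (AutC G) = Nat.card (commutator G) ^ Group.rank G := by
  classical
  obtain ⟨⟨x, y, hxy⟩, -, -⟩ := rank_two hr
  refine card_of_full hr hxy (fun s hs t ht => ?_)
  let N : Subgroup G := ⁅commutator G, (⊤ : Subgroup G)⁆
  let ρ := QuotientGroup.mk' N
  have hρ1 : ∀ g : G, ρ g = 1 ↔ g ∈ N := fun g => QuotientGroup.eq_one_iff g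
  have hρs : Function.Surjective ρ := QuotientGroup.mk'_surjective N
  have hQ : ∀ a b c : G ⧸ N, ⁅⁅a, b⁆, c⁆ = 1 := by
    intro a b c
    obtain ⟨a, rfl⟩ := hρs a
    obtain ⟨b, rfl⟩ := hρs b
    obtain ⟨c, rfl⟩ := hρs c
    rw [← map_commutatorElement, ← map_commutatorElement, hρ1]
    exact Subgroup.commutator_mem_commutator (comm_mem a b) (Subgroup.mem_top c)
  obtain ⟨i, s', hs', hs2⟩ := comm_dec' hxy s hs
  obtain ⟨j, t', ht', ht2⟩ := comm_dec' hxy t ht
  set k := y ^ i * x ^ (-j) with hk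
  have hxyQ : pr hQ (ρ x) (ρ y) = (pr hQ (ρ y) (ρ x))⁻¹ := pr_swap hQ _ _
  have hρk : ρ k = ρ y ^ i * ρ x ^ (-j) := by rw [hk, map_mul, map_zpow, map_zpow]
  have e1 : ρ ⁅k, x⁆ = ρ s := by
    have h1 : pr hQ (ρ k) (ρ x) = (pr hQ (ρ y) (ρ x)) ^ i := by
      rw [hρk, pr_mul_left, pr_zpow, pr_zpow, pr_self, one_zpow, mul_one]
    have h2 := congrArg Subtype.val h1
    rw [hs2, map_mul, (hρ1 s').mpr hs', mul_one, map_zpow, map_commutatorElement,
      map_commutatorElement]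
    exact h2
  have e2 : ρ ⁅k, y⁆ = ρ t := by
    have h1 : pr hQ (ρ k) (ρ y) = (pr hQ (ρ y) (ρ x)) ^ j := by
      rw [hρk, pr_mul_left, pr_zpow, pr_zpow, pr_self, one_zpow, one_mul, hxyQ, inv_zpow,
        zpow_neg, inv_inv]
    have h2 := congrArg Subtype.val h1
    rw [ht2, map_mul, (hρ1 t').mpr ht', mul_one, map_zpow, map_commutatorElement,
      map_commutatorElement]
    exact h2
  have hm1 : s * ⁅k, x⁆⁻¹ ∈ N := by
    rw [← hρ1, map_mul, map_inv, e1, mul_inv_cancel]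
  have hm2 : t * ⁅k, y⁆⁻¹ ∈ N := by
    rw [← hρ1, map_mul, map_inv, e2, mul_inv_cancel]
  obtain ⟨α1, hα1, h11, h12⟩ := twist hG hr hsq h4 hxy _ hm1
  obtain ⟨α2, hα2, h21, h22⟩ := twist hG hr hsq h4 (gen_swap hxy) _ hm2
  have hcen : ∀ t ∈ N, ∀ k : G, k * t = t * k := fun t ht k =>
    commutatorElement_eq_one_iff_mul_comm.mp (h4 t ht k)
  have hfix : ∀ α ∈ AutC G, ∀ t ∈ N, α t = t := by
    intro α hα t ht
    obtain ⟨c, hc⟩ := isConj_iff.mp (hα t)
    rw [← hc, hcen t ht c, mul_inv_cancel_right]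
  refine ⟨MulAut.conj k * (α1 * α2), mul_mem (conj_mem_autC k) (mul_mem hα1 hα2), ?_, ?_⟩
  · show k * (α1 (α2 x)) * k⁻¹ = s * x
    rw [h22, h11]
    have e3 : k * (s * ⁅k, x⁆⁻¹ * x) * k⁻¹ = (s * ⁅k, x⁆⁻¹) * (k * x * k⁻¹) := by
      have := hcen _ hm1 k
      calc k * (s * ⁅k, x⁆⁻¹ * x) * k⁻¹ = (k * (s * ⁅k, x⁆⁻¹)) * x * k⁻¹ := by
            simp only [mul_assoc]
        _ = ((s * ⁅k, x⁆⁻¹) * k) * x * k⁻¹ := by rw [this]
        _ = _ := by simp only [mul_assoc]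
    rw [e3]
    have e4 : k * x * k⁻¹ = ⁅k, x⁆ * x := by rw [commutatorElement_def, inv_mul_cancel_right]
    rw [e4, mul_assoc, inv_mul_cancel_left]
  · show k * (α1 (α2 y)) * k⁻¹ = t * y
    rw [h21, map_mul, hfix α1 hα1 _ hm2, h12]
    have e3 : k * (t * ⁅k, y⁆⁻¹ * y) * k⁻¹ = (t * ⁅k, y⁆⁻¹) * (k * y * k⁻¹) := by
      have := hcen _ hm2 k
      calc k * (t * ⁅k, y⁆⁻¹ * y) * k⁻¹ = (k * (t * ⁅k, y⁆⁻¹)) * y * k⁻¹ := by
            simp only [mul_assoc]
        _ = ((t * ⁅k, y⁆⁻¹) * k) * y * k⁻¹ := by rw [this]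
        _ = _ := by simp only [mul_assoc]
    rw [e3]
    have e4 : k * y * k⁻¹ = ⁅k, y⁆ * y := by rw [commutatorElement_def, inv_mul_cancel_right]
    rw [e4, mul_assoc, inv_mul_cancel_left]

end Three

end Pool.Agent.K7.H88.AC
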